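import Pool.Agent.U44.EQ.Real

/-!
# The copy of `E` which contains the classes of the approximation `g`
-/

set_option autoImplicit false

namespace Pool.Agent.U44.EQ

open Classical Filter
open Pool.Agent.Helper446 Pool.Agent.Helper446.RE

/-- the value of the task `p` -/
def val (p : ℕ) : ℕ := (Nat.unpair p).2

/-- at stage `s` the task `p` believes that the class of `p.1` has size `p.2` -/
def alive (E : ℕ → ℕ → Prop) (p s : ℕ) : Prop :=
  (mn E (Nat.unpair p).1 = (Nat.unpair p).1 ∧ Nat.count (E (Nat.unpair p).1) s = val p) ∧ val p ≠ 0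

/-- the number of classes of `g` which need size `n` -/
noncomputable def nF (g : ℕ → ℕ → ℕ) (n s : ℕ) : ℕ := Nat.count (fun x => g x s = n) n

/-- the number of tasks before `p` with the same value -/
noncomputable def nC (E : ℕ → ℕ → Prop) (p s : ℕ) : ℕ :=
  Nat.count (fun p' => alive E p' s ∧ val p' = val p) p

/-- the task `p` is active -/
def act (E : ℕ → ℕ → Prop) (g : ℕ → ℕ → ℕ) (p s : ℕ) : Prop :=
  alive E p s ∧ nF g (val p) s ≤ nC E p s

/-- the task `p` becomes active at stage `t` -/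
def stt (E : ℕ → ℕ → Prop) (g : ℕ → ℕ → ℕ) (p t : ℕ) : Prop :=
  act E g p t ∧ (t = 0 ∨ ¬ act E g p (t - 1))

/-- the size function -/
noncomputable def GG (E : ℕ → ℕ → Prop) (g : ℕ → ℕ → ℕ) (i s : ℕ) : ℕ :=
  if (Nat.unpair i).1 = 0 then s + 1
  else if (Nat.unpair i).1 = 1 then
    (if (Nat.unpair i).2 < g (Nat.unpair i).2 s then g (Nat.unpair i).2 s else 0)
  else if stt E g ((Nat.unpair i).1 - 2) (Nat.unpair i).2 ∧ (Nat.unpair i).2 ≤ s then
    (if ∀ u < s + 1, (Nat.unpair i).2 ≤ u → act E g ((Nat.unpair i).1 - 2) u then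
      val ((Nat.unpair i).1 - 2) else s + 1 + val ((Nat.unpair i).1 - 2))
  else 0

variable {E : ℕ → ℕ → Prop} {g : ℕ → ℕ → ℕ}

theorem mn_computable (hE : IsCES E) : Computable (mn E) := by
  refine computable_of_graph (ComputablePred.to_re ?_)
  have h1 : ComputablePred fun x : ℕ × ℕ => E x.1 x.2 ∧ ∀ w < x.2, ¬ E x.1 w := by
    refine cpand hE.2 (cpall (p := fun (x : ℕ × ℕ) w => ¬ E x.1 w)
      (f := fun x : ℕ × ℕ => x.2) ?_ (by fun_prop))
    exact ComputablePred.not (cp_comp (p := fun x : ℕ × ℕ => E x.1 x.2) hE.2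
      (by fun_prop : Computable fun x : (ℕ × ℕ) × ℕ => (x.1.1, x.2)))
  refine h1.of_eq fun x => ?_
  constructor
  · rintro ⟨h2, h3⟩
    apply le_antisymm (mn_le h2)
    by_contra h4
    exact h3 _ (not_le.1 h4) (rel_mn hE.1 _)
  · intro h2
    rw [← h2]
    refine ⟨rel_mn hE.1 _, fun w hw hw2 => ?_⟩
    exact absurd (mn_le hw2) (not_le.2 hw)

theorem cE_computable (hE : IsCES E) {α : Type} [Primcodable α] {f h : α → ℕ}
    (hf : Computable f) (hh : Computable h) : Computable fun a => Nat.count (E (f a)) (h a) := by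
  refine ccnt (p := fun a => E (f a)) ?_ hh
  exact cp_comp (p := fun x : ℕ × ℕ => E x.1 x.2) hE.2
    (by fun_prop : Computable fun x : α × ℕ => (f x.1, x.2))

@[fun_prop] theorem val_computable {α : Type} [Primcodable α] {f : α → ℕ} (hf : Computable f) :
    Computable fun a => val (f a) := by
  unfold val
  fun_prop

theorem alive_computable (hE : IsCES E) : ComputablePred fun x : ℕ × ℕ => alive E x.1 x.2 := by
  have h0 := mn_computable hE
  unfold alive
  refine cpand (cpand (cp_eq (by fun_prop) (by fun_prop)) (cp_eq (cE_computable hE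
    (f := fun x : ℕ × ℕ => (Nat.unpair x.1).1) (h := fun x : ℕ × ℕ => x.2) (by fun_prop)
    (by fun_prop)) (by fun_prop))) (ComputablePred.not (cp_eq (by fun_prop) (by fun_prop)))

theorem act_computable (hE : IsCES E) (hg : Computable₂ g) :
    ComputablePred fun x : ℕ × ℕ => act E g x.1 x.2 := by
  have hgc : Computable fun p : ℕ × ℕ => g p.1 p.2 := hg
  have hal := alive_computable hE
  unfold act nF nC
  refine cpand hal (cp_le ?_ ?_)
  · refine ccnt (p := fun (x : ℕ × ℕ) y => g y x.2 = val x.1) (f := fun x : ℕ × ℕ => val x.1)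
      ?_ (by fun_prop)
    exact cp_eq (hgc.comp (by fun_prop : Computable fun x : (ℕ × ℕ) × ℕ => (x.2, x.1.2)))
      (by fun_prop)
  · refine ccnt (p := fun (x : ℕ × ℕ) p' => alive E p' x.2 ∧ val p' = val x.1)
      (f := fun x : ℕ × ℕ => x.1) ?_ (by fun_prop)
    exact cpand (cp_comp (p := fun x : ℕ × ℕ => alive E x.1 x.2) hal
      (by fun_prop : Computable fun x : (ℕ × ℕ) × ℕ => (x.2, x.1.2)))
      (cp_eq (by fun_prop) (by fun_prop))

theorem stt_computable (hE : IsCES E) (hg : Computable₂ g) :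
    ComputablePred fun x : ℕ × ℕ => stt E g x.1 x.2 := by
  have h1 := act_computable hE hg
  unfold stt
  refine cpand h1 (cpor (cp_eq (by fun_prop) (by fun_prop)) (ComputablePred.not ?_))
  exact cp_comp (p := fun x : ℕ × ℕ => act E g x.1 x.2) h1
    (by fun_prop : Computable fun x : ℕ × ℕ => (x.1, x.2 - 1))

theorem GG_computable (hE : IsCES E) (hg : Computable₂ g) : Computable₂ (GG E g) := by
  have hgc : Computable fun p : ℕ × ℕ => g p.1 p.2 := hg
  have h1 := act_computable hE hg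
  have h2 := stt_computable hE hg
  have h3 : Computable fun x : ℕ × ℕ => g (Nat.unpair x.1).2 x.2 :=
    hgc.comp (by fun_prop : Computable fun x : ℕ × ℕ => ((Nat.unpair x.1).2, x.2))
  show Computable fun x : ℕ × ℕ => GG E g x.1 x.2
  unfold GG
  refine cite (cp_eq (by fun_prop) (by fun_prop)) (by fun_prop) ?_
  refine cite (cp_eq (by fun_prop) (by fun_prop)) ?_ ?_
  · exact cite (cp_lt (by fun_prop) h3) h3 (by fun_prop)
  · refine cite (cpand ?_ (cp_le (by fun_prop) (by fun_prop))) ?_ (by fun_prop)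
    · exact cp_comp (p := fun x : ℕ × ℕ => stt E g x.1 x.2) h2
        (by fun_prop : Computable fun x : ℕ × ℕ => ((Nat.unpair x.1).1 - 2, (Nat.unpair x.1).2))
    · refine cite ?_ (by fun_prop) (by fun_prop)
      refine cpall (p := fun (x : ℕ × ℕ) u => (Nat.unpair x.1).2 ≤ u →
        act E g ((Nat.unpair x.1).1 - 2) u) ?_ (by fun_prop)
      refine (cpor (ComputablePred.not (cp_le (f := fun x : (ℕ × ℕ) × ℕ => (Nat.unpair x.1.1).2)
        (g := fun x : (ℕ × ℕ) × ℕ => x.2) (by fun_prop) (by fun_prop)))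
        (cp_comp (p := fun x : ℕ × ℕ => act E g x.1 x.2) h1
        (by fun_prop : Computable fun x : (ℕ × ℕ) × ℕ => ((Nat.unpair x.1.1).1 - 2, x.2)))).of_eq
        fun x => ?_
      tauto

theorem GG_mono (hg : ∀ x, Monotone (g x)) (i : ℕ) : Monotone (GG E g i) := by
  intro s s' hs
  unfold GG
  by_cases h1 : (Nat.unpair i).1 = 0
  · rw [if_pos h1, if_pos h1]; omega
  rw [if_neg h1, if_neg h1]
  by_cases h2 : (Nat.unpair i).1 = 1
  · rw [if_pos h2, if_pos h2]
    have := hg (Nat.unpair i).2 hs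
    split_ifs <;> omega
  rw [if_neg h2, if_neg h2]
  by_cases h3 : stt E g ((Nat.unpair i).1 - 2) (Nat.unpair i).2 ∧ (Nat.unpair i).2 ≤ s
  · have h3' : stt E g ((Nat.unpair i).1 - 2) (Nat.unpair i).2 ∧ (Nat.unpair i).2 ≤ s' :=
      ⟨h3.1, h3.2.trans hs⟩
    rw [if_pos h3, if_pos h3']
    by_cases h4 : ∀ u < s' + 1, (Nat.unpair i).2 ≤ u → act E g ((Nat.unpair i).1 - 2) u
    · have h4' : ∀ u < s + 1, (Nat.unpair i).2 ≤ u → act E g ((Nat.unpair i).1 - 2) u :=
        fun u hu => h4 u (by omega)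
      rw [if_pos h4, if_pos h4']
    · rw [if_neg h4]
      split_ifs <;> omega
  · rw [if_neg h3]
    exact Nat.zero_le _

end Pool.Agent.U44.EQ
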