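import Pool.Agent.U44.TD.Up
import Pool.Agent.Helper446.Comp

/-!
# Computable equivalence structures: definitions and classification by counting classes
-/

set_option autoImplicit false

namespace Pool.Agent.U44.EQ

open Classical

/-- a computable equivalence structure with universe `ℕ` -/
def IsCES (E : ℕ → ℕ → Prop) : Prop :=
  Equivalence E ∧ ComputablePred fun p : ℕ × ℕ => E p.1 p.2

/-- `f` is an isomorphism of `(ℕ, E)` onto `(ℕ, B)` -/
def IsIso (E B : ℕ → ℕ → Prop) (f : ℕ → ℕ) : Prop :=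
  Function.Bijective f ∧ ∀ x y, E x y ↔ B (f x) (f y)

/-- the number of equivalence classes of size `n` -/
noncomputable def cnt (E : ℕ → ℕ → Prop) (n : ℕ∞) : ℕ∞ :=
  Set.encard {C : Set ℕ | (∃ x, C = {y | E x y}) ∧ C.encard = n}

/-- the size of the class of `x` -/
noncomputable def sz (E : ℕ → ℕ → Prop) (x : ℕ) : ℕ∞ := Set.encard {y | E x y}

/-- the limit of a nondecreasing sequence of natural numbers -/
noncomputable def lm (g : ℕ → ℕ → ℕ) (x : ℕ) : ℕ∞ := ⨆ s, (g x s : ℕ∞)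

/-- computable nondecreasing approximations -/
def LM (g : ℕ → ℕ → ℕ) : Prop := Computable₂ g ∧ ∀ x, Monotone (g x)

/-- the limit function takes every nonzero value `n` at most as often as `E` has classes of
size `n` -/
def Emb (E : ℕ → ℕ → Prop) (g : ℕ → ℕ → ℕ) : Prop :=
  ∀ n : ℕ∞, n ≠ 0 → Set.encard {x | lm g x = n} ≤ cnt E n

/-! ### counting -/

theorem lt_iff_toFinset {p : ℕ → Prop} {k : ℕ} (h : (k : ℕ∞) < Set.encard {w | p w}) :
    ∀ hf : (Set.ofPred p).Finite, k < hf.toFinset.card := by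
  intro hf
  rw [show ({w | p w} : Set ℕ) = Set.ofPred p from rfl, hf.encard_eq_coe_toFinset_card] at h
  exact_mod_cast h

theorem exists_count {p : ℕ → Prop} [DecidablePred p] {k : ℕ} (h : (k : ℕ∞) < Set.encard {w | p w}) :
    ∃ w, p w ∧ Nat.count p w = k :=
  ⟨Nat.nth p k, Nat.nth_mem k (lt_iff_toFinset h), Nat.count_nth (lt_iff_toFinset h)⟩

theorem count_lt_encard {p : ℕ → Prop} [DecidablePred p] {m : ℕ} (h : p m) :
    (Nat.count p m : ℕ∞) < Set.encard {w | p w} := by
  have h1 : (((Finset.range (m + 1)).filter p : Finset ℕ) : Set ℕ).encard ≤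
      Set.encard {w | p w} := by
    apply Set.encard_le_encard
    intro w hw
    have := Finset.mem_coe.1 hw
    exact (Finset.mem_filter.1 this).2
  rw [Set.encard_coe_eq_coe_finsetCard, ← Nat.count_eq_card_filter_range, Nat.count_succ,
    if_pos h] at h1
  refine lt_of_lt_of_le ?_ h1
  exact_mod_cast Nat.lt_succ_self _

theorem encard_first {p : ℕ → Prop} [DecidablePred p] {b : ℕ} (h : (b : ℕ∞) ≤ Set.encard {w | p w}) :
    Set.encard {w | p w ∧ Nat.count p w < b} = b := by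
  have h1 : {w | p w ∧ Nat.count p w < b} = (Nat.nth p) '' {k | k < b} := by
    ext w
    constructor
    · rintro ⟨hw, hc⟩
      exact ⟨Nat.count p w, hc, Nat.nth_count hw⟩
    · rintro ⟨k, hk, rfl⟩
      have h2 : (k : ℕ∞) < Set.encard {w | p w} := lt_of_lt_of_le (by exact_mod_cast hk) h
      exact ⟨Nat.nth_mem k (lt_iff_toFinset h2), by rw [Nat.count_nth (lt_iff_toFinset h2)]; exact hk⟩
  rw [h1, Set.InjOn.encard_image]
  · have : ({k | k < b} : Set ℕ) = ((Finset.range b : Finset ℕ) : Set ℕ) := by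
      ext k; simp
    rw [this, Set.encard_coe_eq_coe_finsetCard, Finset.card_range]
  · intro k hk l hl hkl
    have h2 : (k : ℕ∞) < Set.encard {w | p w} := lt_of_lt_of_le (by exact_mod_cast hk) h
    have h3 : (l : ℕ∞) < Set.encard {w | p w} := lt_of_lt_of_le (by exact_mod_cast hl) h
    rw [← Nat.count_nth (lt_iff_toFinset h2), ← Nat.count_nth (lt_iff_toFinset h3), hkl]

theorem encard_rest {p : ℕ → Prop} [DecidablePred p] {b : ℕ} (h : (b : ℕ∞) ≤ Set.encard {w | p w}) :
    (b : ℕ∞) + Set.encard {w | p w ∧ b ≤ Nat.count p w} = Set.encard {w | p w} := by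
  rw [← encard_first h, ← Set.encard_union_eq]
  · congr 1
    ext w
    simp only [Set.mem_union, Set.mem_ofPred_eq]
    constructor
    · rintro (h | h) <;> exact h.1
    · intro hw
      rcases lt_or_ge (Nat.count p w) b with h1 | h1
      · exact Or.inl ⟨hw, h1⟩
      · exact Or.inr ⟨hw, h1⟩
  · rw [Set.disjoint_left]
    rintro w ⟨_, h1⟩ ⟨_, h2⟩
    omega

/-! ### the code of an element -/

/-- the least element of the class of `x` -/
noncomputable def mn (E : ℕ → ℕ → Prop) (x : ℕ) : ℕ := sInf {y | E x y}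

/-- `w` is the least element of a class of size `t` -/
def K (E : ℕ → ℕ → Prop) (t : ℕ∞) (w : ℕ) : Prop := mn E w = w ∧ sz E w = t

/-- the rank of the class of `x` among the classes of its size -/
noncomputable def rk (E : ℕ → ℕ → Prop) (x : ℕ) : ℕ := Nat.count (K E (sz E x)) (mn E x)

/-- the position of `x` in its class -/
noncomputable def ps (E : ℕ → ℕ → Prop) (x : ℕ) : ℕ := Nat.count (E x) x

section

variable {E B : ℕ → ℕ → Prop}

theorem rel_mn (h : Equivalence E) (x : ℕ) : E x (mn E x) :=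
  Nat.sInf_mem (s := {y | E x y}) ⟨x, h.refl x⟩

theorem mn_le {x y : ℕ} (hxy : E x y) : mn E x ≤ y := Nat.sInf_le (s := {y | E x y}) hxy

theorem cls_eq (h : Equivalence E) {x y : ℕ} (hxy : E x y) : {z | E x z} = {z | E y z} := by
  ext z
  exact ⟨fun hz => h.trans (h.symm hxy) hz, fun hz => h.trans hxy hz⟩

theorem mn_eq (h : Equivalence E) {x y : ℕ} (hxy : E x y) : mn E x = mn E y := by
  unfold mn
  rw [cls_eq h hxy]

theorem sz_eq (h : Equivalence E) {x y : ℕ} (hxy : E x y) : sz E x = sz E y := by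
  unfold sz
  rw [cls_eq h hxy]

theorem rel_iff_mn (h : Equivalence E) {x y : ℕ} : E x y ↔ mn E x = mn E y :=
  ⟨mn_eq h, fun h1 => h.trans (rel_mn h x) (h1 ▸ h.symm (rel_mn h y))⟩

theorem mn_mn (h : Equivalence E) (x : ℕ) : mn E (mn E x) = mn E x :=
  (mn_eq h (rel_mn h x)).symm

theorem K_mn (h : Equivalence E) (x : ℕ) : K E (sz E x) (mn E x) :=
  ⟨mn_mn h x, (sz_eq h (rel_mn h x)).symm⟩

theorem rel_iff (h : Equivalence E) {x y : ℕ} :
    E x y ↔ sz E x = sz E y ∧ rk E x = rk E y := by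
  constructor
  · intro hxy
    refine ⟨sz_eq h hxy, ?_⟩
    unfold rk
    rw [sz_eq h hxy, mn_eq h hxy]
  · rintro ⟨h1, h2⟩
    rw [rel_iff_mn h]
    unfold rk at h2
    rw [h1] at h2
    exact Nat.count_injective (h1 ▸ K_mn h x) (K_mn h y) h2

theorem eq_of_ps (h : Equivalence E) {x y : ℕ} (hxy : E x y) (h2 : ps E x = ps E y) : x = y := by
  have h3 : E x = E y := by
    funext z
    exact propext ⟨fun hz => h.trans (h.symm hxy) hz, fun hz => h.trans hxy hz⟩
  unfold ps at h2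
  rw [h3] at h2
  exact Nat.count_injective (h.symm hxy) (h.refl y) h2

theorem sz_ne_zero (h : Equivalence E) (x : ℕ) : sz E x ≠ 0 := by
  unfold sz
  rw [Set.encard_ne_zero]
  exact ⟨x, h.refl x⟩

theorem cnt_eq (h : Equivalence E) (t : ℕ∞) : cnt E t = Set.encard {w | K E t w} := by
  have h1 : {C : Set ℕ | (∃ x, C = {y | E x y}) ∧ C.encard = t} =
      (fun w => {y | E w y}) '' {w | K E t w} := by
    ext C
    constructor
    · rintro ⟨⟨x, rfl⟩, h2⟩
      refine ⟨mn E x, ?_, ?_⟩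
      · have := K_mn h x
        have h3 : sz E x = t := h2
        rwa [h3] at this
      · exact (cls_eq h (rel_mn h x)).symm
    · rintro ⟨w, hw, rfl⟩
      exact ⟨⟨w, rfl⟩, hw.2⟩
  unfold cnt
  rw [h1, Set.InjOn.encard_image]
  intro w hw v hv hwv
  have h2 : E w v := by
    have h3 : v ∈ (fun w => {y | E w y}) v := h.refl v
    rw [← hwv] at h3
    exact h3
  have h3 := (rel_iff_mn h).1 h2
  rw [hw.1, hv.1] at h3
  exact h3

theorem cnt_zero (h : Equivalence E) : cnt E 0 = 0 := by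
  rw [cnt_eq h, Set.encard_eq_zero, Set.eq_empty_iff_forall_notMem]
  rintro w ⟨_, hw⟩
  exact sz_ne_zero h w hw

theorem exists_code (h : Equivalence E) {t : ℕ∞} {k j : ℕ} (hk : (k : ℕ∞) < cnt E t)
    (hj : (j : ℕ∞) < t) : ∃ x, sz E x = t ∧ rk E x = k ∧ ps E x = j := by
  rw [cnt_eq h] at hk
  obtain ⟨w, hw, hwk⟩ := exists_count hk
  have hj' : (j : ℕ∞) < Set.encard {y | E w y} := by
    have := hw.2
    unfold sz at this
    rw [this]; exact hj
  obtain ⟨x, hx, hxj⟩ := exists_count hj'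
  have hsz : sz E x = t := by rw [← sz_eq h hx]; exact hw.2
  refine ⟨x, hsz, ?_, ?_⟩
  · unfold rk
    rw [hsz, ← mn_eq h hx, hw.1, hwk]
  · unfold ps
    have h3 : E x = E w := by
      funext z
      exact propext ⟨fun hz => h.trans hx hz, fun hz => h.trans (h.symm hx) hz⟩
    rw [h3, hxj]

theorem rk_lt (h : Equivalence E) (x : ℕ) : (rk E x : ℕ∞) < cnt E (sz E x) := by
  rw [cnt_eq h]
  exact count_lt_encard (K_mn h x)

theorem ps_lt (h : Equivalence E) (x : ℕ) : (ps E x : ℕ∞) < sz E x :=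
  count_lt_encard (p := E x) (h.refl x)

/-- two equivalence structures with the same numbers of classes: the map which preserves codes -/
theorem exists_map (hE : Equivalence E) (hB : Equivalence B)
    (hc : ∀ t, t ≠ 0 → cnt E t = cnt B t) (x : ℕ) :
    ∃ y, sz B y = sz E x ∧ rk B y = rk E x ∧ ps B y = ps E x := by
  refine exists_code hB ?_ (ps_lt hE x)
  rw [← hc _ (sz_ne_zero hE x)]
  exact rk_lt hE x

theorem isIso_of_code (hE : Equivalence E) (hB : Equivalence B)
    (hc : ∀ t, t ≠ 0 → cnt E t = cnt B t) {f : ℕ → ℕ}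
    (hf : ∀ x, sz B (f x) = sz E x ∧ rk B (f x) = rk E x ∧ ps B (f x) = ps E x) :
    IsIso E B f := by
  have h1 : ∀ x y, E x y ↔ B (f x) (f y) := by
    intro x y
    rw [rel_iff hE, rel_iff hB, (hf x).1, (hf y).1, (hf x).2.1, (hf y).2.1]
  refine ⟨⟨fun x y hxy => ?_, fun y => ?_⟩, h1⟩
  · have h2 : E x y := (h1 x y).2 (hxy ▸ hB.refl _)
    refine eq_of_ps hE h2 ?_
    rw [← (hf x).2.2, ← (hf y).2.2, hxy]
  · obtain ⟨x, hx1, hx2, hx3⟩ := exists_map hB hE (fun t ht => (hc t ht).symm) y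
    refine ⟨x, ?_⟩
    have h2 : B (f x) y := by
      rw [rel_iff hB, (hf x).1, (hf x).2.1, hx1, hx2]
      exact ⟨rfl, rfl⟩
    refine eq_of_ps hB h2 ?_
    rw [(hf x).2.2, hx3]

theorem exists_iso (hE : Equivalence E) (hB : Equivalence B)
    (hc : ∀ t, t ≠ 0 → cnt E t = cnt B t) : ∃ f, IsIso E B f := by
  choose f hf using exists_map hE hB hc
  exact ⟨f, isIso_of_code hE hB hc hf⟩

theorem sz_iso {f : ℕ → ℕ} (h : IsIso E B f) (x : ℕ) : sz B (f x) = sz E x := by
  have h1 : {y | B (f x) y} = f '' {y | E x y} := by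
    ext z
    constructor
    · intro hz
      obtain ⟨y, rfl⟩ := h.1.2 z
      exact ⟨y, (h.2 x y).2 hz, rfl⟩
    · rintro ⟨y, hy, rfl⟩
      exact (h.2 x y).1 hy
  unfold sz
  rw [h1, Set.InjOn.encard_image h.1.1.injOn]

theorem cnt_iso {f : ℕ → ℕ} (h : IsIso E B f) (t : ℕ∞) : cnt E t = cnt B t := by
  have him : ∀ x, {y | B (f x) y} = f '' {y | E x y} := by
    intro x
    ext z
    constructor
    · intro hz
      obtain ⟨y, rfl⟩ := h.1.2 z
      exact ⟨y, (h.2 x y).2 hz, rfl⟩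
    · rintro ⟨y, hy, rfl⟩
      exact (h.2 x y).1 hy
  have h1 : {C : Set ℕ | (∃ x, C = {y | B x y}) ∧ C.encard = t} =
      (fun C => f '' C) '' {C : Set ℕ | (∃ x, C = {y | E x y}) ∧ C.encard = t} := by
    ext C
    constructor
    · rintro ⟨⟨z, rfl⟩, h2⟩
      obtain ⟨x, rfl⟩ := h.1.2 z
      refine ⟨{y | E x y}, ⟨⟨x, rfl⟩, ?_⟩, (him x).symm⟩
      rw [him, Set.InjOn.encard_image h.1.1.injOn] at h2
      exact h2
    · rintro ⟨C, ⟨⟨x, rfl⟩, h2⟩, rfl⟩
      refine ⟨⟨f x, (him x).symm⟩, ?_⟩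
      show (f '' _).encard = t
      rw [Set.InjOn.encard_image h.1.1.injOn]
      exact h2
  unfold cnt
  rw [h1, Set.InjOn.encard_image]
  exact (Set.image_injective.2 h.1.1).injOn

end

end Pool.Agent.U44.EQ
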