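import Pool.Agent.U44.EQ.Main

/-!
# Computable equivalence structures with an arbitrary computable universe
-/

set_option autoImplicit false

namespace Pool.Agent.U44.EQ

open Classical
open Pool.Agent.Helper446 Pool.Agent.Helper446.RE
open Pool.Agent.U44.TD (chH red_chH_of_re)
open Pool.Agent.Helper583.TC (orc Red)

/-- a computable equivalence structure: a computable universe `A ⊆ ℕ` and a computable equivalence
relation `E ⊆ A × A` on it -/
structure CES where
  A : ℕ → Prop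
  E : ℕ → ℕ → Prop
  compA : ComputablePred A
  compE : ComputablePred fun p : ℕ × ℕ => E p.1 p.2
  sub : ∀ x y, E x y → A x ∧ A y
  refl : ∀ x, A x → E x x
  symm : ∀ x y, E x y → E y x
  trans : ∀ x y z, E x y → E y z → E x z

/-- `f` (restricted to the universe of `M`) is an isomorphism of `M` onto `N` -/
def Iso (M N : CES) (f : ℕ → ℕ) : Prop :=
  Set.BijOn f {x | M.A x} {y | N.A y} ∧ ∀ x y, M.A x → M.A y → (M.E x y ↔ N.E (f x) (f y))

/-- the number of classes of size `n` -/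
noncomputable def num (M : CES) (n : ℕ∞) : ℕ∞ :=
  Set.encard {C : Set ℕ | (∃ x, M.A x ∧ C = {y | M.E x y}) ∧ C.encard = n}

/-- the structure with universe `ℕ` -/
def ofE (E : ℕ → ℕ → Prop) (h : IsCES E) : CES where
  A := fun _ => True
  E := E
  compA := ComputablePred.computable_iff.2 ⟨fun _ => true, Computable.const true, by simp⟩
  compE := h.2
  sub := fun _ _ _ => ⟨trivial, trivial⟩
  refl := fun x _ => h.1.refl x
  symm := fun _ _ hxy => h.1.symm hxy
  trans := fun _ _ _ hxy hyz => h.1.trans hxy hyz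

theorem iso_ofE {E B : ℕ → ℕ → Prop} (hE : IsCES E) (hB : IsCES B) {f : ℕ → ℕ} :
    Iso (ofE E hE) (ofE B hB) f ↔ IsIso E B f := by
  unfold Iso IsIso
  have h1 : Set.BijOn f {x | (ofE E hE).A x} {y | (ofE B hB).A y} ↔ Function.Bijective f := by
    have h2 : ({x | (ofE E hE).A x} : Set ℕ) = Set.univ := by ext; simp [ofE]
    have h3 : ({y | (ofE B hB).A y} : Set ℕ) = Set.univ := by ext; simp [ofE]
    rw [h2, h3, Set.bijOn_univ]
  rw [h1]
  constructor
  · rintro ⟨h2, h3⟩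
    exact ⟨h2, fun x y => h3 x y trivial trivial⟩
  · rintro ⟨h2, h3⟩
    exact ⟨h2, fun x y _ _ => h3 x y⟩

theorem Iso.comp {M N P : CES} {f g : ℕ → ℕ} (hf : Iso M N f) (hg : Iso N P g) :
    Iso M P (fun x => g (f x)) := by
  refine ⟨hg.1.comp hf.1, fun x y hx hy => ?_⟩
  rw [hf.2 x y hx hy]
  exact hg.2 _ _ (hf.1.mapsTo hx) (hf.1.mapsTo hy)

theorem num_iso {M N : CES} {f : ℕ → ℕ} (h : Iso M N f) (t : ℕ∞) : num M t = num N t := by
  have him : ∀ x, M.A x → {y | N.E (f x) y} = f '' {y | M.E x y} := by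
    intro x hx
    ext z
    constructor
    · intro hz
      have hzA := (N.sub _ _ hz).2
      obtain ⟨y, hy, rfl⟩ := h.1.surjOn hzA
      exact ⟨y, (h.2 x y hx hy).2 hz, rfl⟩
    · rintro ⟨y, hy, rfl⟩
      exact (h.2 x y hx (M.sub _ _ hy).2).1 hy
  have hsub : ∀ x, {y | M.E x y} ⊆ {x | M.A x} := fun x y hy => (M.sub _ _ hy).2
  have henc : ∀ x, (f '' {y | M.E x y}).encard = Set.encard {y | M.E x y} := fun x =>
    Set.InjOn.encard_image (h.1.injOn.mono (hsub x))
  have h1 : {C : Set ℕ | (∃ x, N.A x ∧ C = {y | N.E x y}) ∧ C.encard = t} =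
      (fun C => f '' C) '' {C : Set ℕ | (∃ x, M.A x ∧ C = {y | M.E x y}) ∧ C.encard = t} := by
    ext C
    constructor
    · rintro ⟨⟨z, hz, rfl⟩, h2⟩
      obtain ⟨x, hx, rfl⟩ := h.1.surjOn hz
      refine ⟨{y | M.E x y}, ⟨⟨x, hx, rfl⟩, ?_⟩, (him x hx).symm⟩
      rw [him x hx, henc] at h2
      exact h2
    · rintro ⟨C, ⟨⟨x, hx, rfl⟩, h2⟩, rfl⟩
      refine ⟨⟨f x, h.1.mapsTo hx, (him x hx).symm⟩, ?_⟩
      show (f '' _).encard = t
      rw [henc]
      exact h2
  unfold num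
  rw [h1, Set.InjOn.encard_image]
  rintro C ⟨⟨x, hx, rfl⟩, _⟩ C' ⟨⟨x', hx', rfl⟩, _⟩ hCC
  exact (h.1.injOn.image_eq_image_iff (hsub x) (hsub x')).1 hCC

theorem num_ofE {E : ℕ → ℕ → Prop} (hE : IsCES E) (t : ℕ∞) : num (ofE E hE) t = cnt E t := by
  unfold num cnt
  congr 1
  ext C
  constructor
  · rintro ⟨⟨x, _, hx⟩, h⟩
    exact ⟨⟨x, hx⟩, h⟩
  · rintro ⟨⟨x, hx⟩, h⟩
    exact ⟨⟨x, trivial, hx⟩, h⟩

/-! ### renumbering -/

section ren

variable (M : CES)

/-- the renumbered relation -/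
noncomputable def ren (x y : ℕ) : Prop := M.E (Nat.nth M.A x) (Nat.nth M.A y)

theorem nth_comp (hinf : (Set.ofPred M.A).Infinite) : Computable fun k => Nat.nth M.A k := by
  refine computable_of_graph ?_
  have h1 : REPred fun x : ℕ × ℕ => M.A x.2 ∧ Nat.count M.A x.2 = x.1 :=
    RE.and (RE.comp (RE.of_comput M.compA) Computable.snd)
      (RE.eq ((ccnt (p := fun (_ : ℕ × ℕ) i => M.A i) (cp_comp M.compA Computable.snd)
        Computable.snd)) Computable.fst)
  refine h1.of_eq fun x => ?_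
  constructor
  · rintro ⟨h2, h3⟩
    rw [← h3, Nat.nth_count h2]
  · intro h2
    rw [← h2]
    exact ⟨Nat.nth_mem_of_infinite hinf _, Nat.count_nth_of_infinite hinf _⟩

theorem count_comp : Computable fun k => Nat.count M.A k :=
  ccnt (p := fun (_ : ℕ) i => M.A i) (cp_comp M.compA Computable.snd) Computable.id

theorem ren_CES (hinf : (Set.ofPred M.A).Infinite) : IsCES (ren M) := by
  have h := nth_comp M hinf
  refine ⟨⟨fun x => M.refl _ (Nat.nth_mem_of_infinite hinf x), fun h => M.symm _ _ h,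
    fun h1 h2 => M.trans _ _ _ h1 h2⟩, ?_⟩
  exact cp_comp (p := fun p : ℕ × ℕ => M.E p.1 p.2) M.compE
    (by fun_prop : Computable fun p : ℕ × ℕ => (Nat.nth M.A p.1, Nat.nth M.A p.2))

theorem iso_nth (hinf : (Set.ofPred M.A).Infinite) :
    Iso (ofE (ren M) (ren_CES M hinf)) M (Nat.nth M.A) := by
  refine ⟨⟨fun x _ => Nat.nth_mem_of_infinite hinf x, (Nat.nth_injective hinf).injOn, ?_⟩,
    fun x y _ _ => Iff.rfl⟩
  intro y hy
  exact ⟨Nat.count M.A y, trivial, Nat.nth_count hy⟩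

theorem iso_count (hinf : (Set.ofPred M.A).Infinite) :
    Iso M (ofE (ren M) (ren_CES M hinf)) (Nat.count M.A) := by
  refine ⟨⟨fun x _ => trivial, fun x hx y hy h => Nat.count_injective hx hy h, ?_⟩, ?_⟩
  · intro y _
    exact ⟨Nat.nth M.A y, Nat.nth_mem_of_infinite hinf y, Nat.count_nth_of_infinite hinf y⟩
  · intro x y hx hy
    show _ ↔ M.E _ _
    rw [Nat.nth_count hx, Nat.nth_count hy]

end ren

theorem infinite_iso {M N : CES} {f : ℕ → ℕ} (h : Iso M N f) (hM : (Set.ofPred M.A).Infinite) :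
    (Set.ofPred N.A).Infinite := by
  have h1 := h.1.image_eq
  have h2 : Set.ofPred N.A = f '' {x | M.A x} := h1.symm
  rw [h2]
  exact hM.image h.1.injOn

/-! ### uniformly c.e. families -/

/-- the size of the `x`-th set -/
noncomputable def vs (V : ℕ → ℕ → Prop) (x : ℕ) : ℕ∞ := Set.encard {y | V x y}

theorem exists_g {V : ℕ → ℕ → Prop} (hV : REPred fun p : ℕ × ℕ => V p.1 p.2) :
    ∃ g, LM g ∧ ∀ x, lm g x = vs V x := by
  obtain ⟨q, hq, h⟩ := re_iff.1 hV
  have hqc : Computable fun p : (ℕ × ℕ) × ℕ => q p.1 p.2 := hq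
  obtain ⟨g, hg⟩ : ∃ g : ℕ → ℕ → ℕ, ∀ x s, g x s =
      Nat.count (fun y => ∃ k < s, q (x, y) k = true) s := ⟨_, fun _ _ => rfl⟩
  have hmono : ∀ x, Monotone (g x) := by
    intro x s s' hs
    rw [hg, hg]
    refine le_trans (Nat.count_monotone _ hs) ?_
    apply Nat.count_mono_left
    rintro y _ ⟨k, hk, hk'⟩
    exact ⟨k, by omega, hk'⟩
  refine ⟨g, ⟨?_, hmono⟩, fun x => ?_⟩
  · have h1 : Computable fun p : ℕ × ℕ =>
        Nat.count (fun y => ∃ k < p.2, q (p.1, y) k = true) p.2 := by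
      refine ccnt (p := fun (p : ℕ × ℕ) y => ∃ k < p.2, q (p.1, y) k = true)
        (f := fun p : ℕ × ℕ => p.2) ?_ (by fun_prop)
      refine cpex (p := fun (z : (ℕ × ℕ) × ℕ) k => q (z.1.1, z.2) k = true)
        (f := fun z : (ℕ × ℕ) × ℕ => z.1.2) ?_ (by fun_prop)
      exact ComputablePred.computable_iff.2 ⟨_, hqc.comp (by fun_prop :
        Computable fun z : ((ℕ × ℕ) × ℕ) × ℕ => ((z.1.1.1, z.1.2), z.2)), rfl⟩
    exact h1.of_eq fun p => (hg p.1 p.2).symm
  · apply le_antisymm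
    · rw [lm_le]
      intro s
      rw [hg, ← encard_cnt]
      apply Set.encard_le_encard
      rintro y ⟨_, k, _, hk⟩
      exact (h (x, y)).2 ⟨k, hk⟩
    · by_contra hcon
      rw [not_le] at hcon
      obtain ⟨n, hn⟩ := ENat.ne_top_iff_exists.1 (ne_top_of_lt hcon)
      rw [← hn] at hcon
      -- `n + 1` elements of the set
      have h1 : ((n + 1 : ℕ) : ℕ∞) ≤ Set.encard {y | V x y} := by
        have := Order.add_one_le_of_lt hcon
        exact_mod_cast this
      obtain ⟨T, hT1, hT2⟩ := Set.exists_subset_encard_eq h1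
      have hTf : T.Finite := Set.finite_of_encard_eq_coe hT2
      have h2 : ∀ y ∈ T, ∃ k, q (x, y) k = true := fun y hy => (h (x, y)).1 (hT1 hy)
      choose! kk hkk using h2
      obtain ⟨m, hm⟩ : ∃ m, ∀ y ∈ T, y < m ∧ kk y < m := by
        obtain ⟨m1, hm1⟩ := hTf.bddAbove
        obtain ⟨m2, hm2⟩ := (hTf.image kk).bddAbove
        refine ⟨m1 + m2 + 1, fun y hy => ⟨?_, ?_⟩⟩
        · have := hm1 hy
          omega
        · have := hm2 ⟨y, hy, rfl⟩
          omega
      have h3 : ((n + 1 : ℕ) : ℕ∞) ≤ (g x m : ℕ∞) := by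
        rw [← hT2, hg, ← encard_cnt]
        apply Set.encard_le_encard
        intro y hy
        exact ⟨(hm y hy).1, kk y, (hm y hy).2, hkk y hy⟩
      have h4 := h3.trans (le_lm x m)
      rw [← hn] at h4
      have h5 : n + 1 ≤ n := by exact_mod_cast h4
      omega

theorem exists_V {g : ℕ → ℕ → ℕ} (hg : LM g) :
    ∃ V : ℕ → ℕ → Prop, (REPred fun p : ℕ × ℕ => V p.1 p.2) ∧ ∀ x, vs V x = lm g x := by
  have hgc : Computable fun p : ℕ × ℕ => g p.1 p.2 := hg.1
  refine ⟨fun x y => ∃ s, y < g x s, ?_, fun x => ?_⟩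
  · refine RE.exN (p := fun (p : ℕ × ℕ) s => p.2 < g p.1 s) ?_
    exact RE.lt (by fun_prop) (hgc.comp (by fun_prop : Computable fun x : (ℕ × ℕ) × ℕ =>
      (x.1.1, x.2)))
  · unfold vs
    rw [← encard_lt (lm g x)]
    congr 1
    ext y
    exact lt_lm.symm

/-- the family fits into `M` -/
def Fits (M : CES) (V : ℕ → ℕ → Prop) : Prop :=
  ∀ n : ℕ∞, n ≠ 0 → Set.encard {x | Set.encard {y | V x y} = n} ≤ num M n

theorem inf_iff {V : ℕ → ℕ → Prop} {x : ℕ} : {y | V x y}.Infinite ↔ vs V x = ⊤ :=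
  Set.encard_eq_top_iff.symm

/-- the four conditions -/
def P1 (D : ℕ → ℕ) (M : CES) : Prop :=
  ∀ N : CES, (∃ f, Iso M N f) → ∃ f, Iso M N f ∧ Red f D

def P2 (D : ℕ → ℕ) (M : CES) : Prop :=
  ∀ N : CES, (∃ f, Iso M N f) → Red (chi fun x => {y | N.E x y}.Infinite) D

def P3 (D : ℕ → ℕ) (M : CES) : Prop :=
  ∀ V : ℕ → ℕ → Prop, (REPred fun p : ℕ × ℕ => V p.1 p.2) → Fits M V →
    Red (chi fun x => {y | V x y}.Infinite) D

def P4 (D : ℕ → ℕ) (M : CES) : Prop :=
  ∀ V : ℕ → ℕ → Prop, (REPred fun p : ℕ × ℕ => V p.1 p.2) → Fits M V →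
    ∃ h : ℕ → ℕ, Red h D ∧ ∀ x, {y | V x y}.Finite → Set.encard {y | V x y} ≤ h x

variable {D : ℕ → ℕ}

theorem p3_p4 (hD : Red chH D) {M : CES} (h : P3 D M) : P4 D M := by
  intro V hV hf
  obtain ⟨g, hg, hgV⟩ := exists_g hV
  refine ⟨fun x => (lm g x).toNat, red_lim hD hg ?_, fun x hx => ?_⟩
  · have h1 := h V hV hf
    simp only [inf_iff, ← hgV] at h1
    exact h1
  · have h2 : lm g x ≠ ⊤ := by
      rw [hgV, Ne, ← inf_iff]
      exact fun h3 => h3 hx
    rw [ENat.natCast_toNat h2, hgV]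
    exact le_rfl

theorem emb_of_fits {M : CES} {E : ℕ → ℕ → Prop} (hc : ∀ t, num M t = cnt E t)
    {V : ℕ → ℕ → Prop} {g : ℕ → ℕ → ℕ} (hgV : ∀ x, lm g x = vs V x) :
    Fits M V ↔ Emb E g := by
  unfold Fits Emb
  simp only [hgV, ← hc]
  rfl

theorem p3_iff {M : CES} {E : ℕ → ℕ → Prop} (hc : ∀ t, num M t = cnt E t) :
    P3 D M ↔ C3 D E := by
  constructor
  · intro h g hg he
    obtain ⟨V, hV, hVg⟩ := exists_V hg
    have h1 := h V hV ((emb_of_fits hc fun x => (hVg x).symm).2 he)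
    simp only [inf_iff, hVg] at h1
    exact h1
  · intro h V hV hf
    obtain ⟨g, hg, hgV⟩ := exists_g hV
    have h1 := h g hg ((emb_of_fits hc hgV).1 hf)
    simp only [inf_iff, ← hgV]
    exact h1

theorem p4_c4 {M : CES} {E : ℕ → ℕ → Prop} (hc : ∀ t, num M t = cnt E t)
    (h : P4 D M) : C4 D E := by
  intro g hg he
  obtain ⟨V, hV, hVg⟩ := exists_V hg
  obtain ⟨b, hb, hbd⟩ := h V hV ((emb_of_fits hc fun x => (hVg x).symm).2 he)
  refine ⟨b, hb, fun x hx => ?_⟩
  have h1 : {y | V x y}.Finite := by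
    by_contra h2
    have h3 : {y | V x y}.Infinite := h2
    rw [inf_iff, hVg] at h3
    exact hx h3
  have h4 := hbd x h1
  rw [← hVg]
  exact h4

theorem encard_iso {M N : CES} {f : ℕ → ℕ} (h : Iso M N f) {x : ℕ} (hx : M.A x) :
    Set.encard {y | N.E (f x) y} = Set.encard {y | M.E x y} := by
  have him : {y | N.E (f x) y} = f '' {y | M.E x y} := by
    ext z
    constructor
    · intro hz
      have hzA := (N.sub _ _ hz).2
      obtain ⟨y, hy, rfl⟩ := h.1.surjOn hzA
      exact ⟨y, (h.2 x y hx hy).2 hz, rfl⟩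
    · rintro ⟨y, hy, rfl⟩
      exact (h.2 x y hx (M.sub _ _ hy).2).1 hy
  have hsub : {y | M.E x y} ⊆ {x | M.A x} := fun y hy => (M.sub _ _ hy).2
  rw [him, Set.InjOn.encard_image (h.1.injOn.mono hsub)]

theorem p2_c2 {M : CES} (hinf : (Set.ofPred M.A).Infinite) (h : P2 D M) : C2 D (ren M) := by
  rintro B hB ⟨f, hf⟩
  have h1 := h (ofE B hB) ⟨_, (iso_count M hinf).comp ((iso_ofE (ren_CES M hinf) hB).2 hf)⟩
  have h2 : infE B = chi fun x => {y | (ofE B hB).E x y}.Infinite := by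
    unfold infE chi
    funext x
    congr 1
    show (sz B x = ⊤) = ({y | B x y}.Infinite)
    rw [← Set.encard_eq_top_iff]
    rfl
  rw [h2]
  exact h1

theorem c2_p2 {M : CES} (hinf : (Set.ofPred M.A).Infinite) (h : C2 D (ren M)) : P2 D M := by
  rintro N ⟨f, hf⟩
  have hN := infinite_iso hf hinf
  have h1 := h (ren N) (ren_CES N hN) ⟨_, (iso_ofE (ren_CES M hinf) (ren_CES N hN)).1
    (((iso_nth M hinf).comp hf).comp (iso_count N hN))⟩
  have h2 := rite (chi_of_cp (D := D) N.compA) (rcomp h1 (rcomput (count_comp N)))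
    (rcomput (Computable.const 0))
  have h3 : (chi fun x => {y | N.E x y}.Infinite) =
      fun x => if N.A x then infE (ren N) (Nat.count N.A x) else 0 := by
    funext x
    by_cases hx : N.A x
    · rw [if_pos hx]
      unfold infE chi
      congr 1
      show ({y | N.E x y}.Infinite) = (sz (ren N) (Nat.count N.A x) = ⊤)
      have h4 : sz (ren N) (Nat.count N.A x) = Set.encard {y | N.E x y} :=
        encard_iso (iso_count N hN) hx
      rw [h4, Set.encard_eq_top_iff]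
    · rw [if_neg hx]
      unfold chi
      rw [if_neg]
      intro h4
      obtain ⟨y, hy⟩ := h4.nonempty
      exact hx (N.sub _ _ hy).1
  rw [h3]
  exact h2

theorem p1_cat {M : CES} (hinf : (Set.ofPred M.A).Infinite) (h : P1 D M) : Cat D (ren M) := by
  rintro B hB ⟨f, hf⟩
  obtain ⟨f', hf', hD'⟩ := h (ofE B hB) ⟨_, (iso_count M hinf).comp
    ((iso_ofE (ren_CES M hinf) hB).2 hf)⟩
  exact ⟨_, (iso_ofE (ren_CES M hinf) hB).1 ((iso_nth M hinf).comp hf'),
    rcomp hD' (rcomput (nth_comp M hinf))⟩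

theorem cat_p1 {M : CES} (hinf : (Set.ofPred M.A).Infinite) (h : Cat D (ren M)) : P1 D M := by
  rintro N ⟨f, hf⟩
  have hN := infinite_iso hf hinf
  obtain ⟨f', hf', hD'⟩ := h (ren N) (ren_CES N hN) ⟨_,
    (iso_ofE (ren_CES M hinf) (ren_CES N hN)).1
    (((iso_nth M hinf).comp hf).comp (iso_count N hN))⟩
  exact ⟨_, ((iso_count M hinf).comp ((iso_ofE (ren_CES M hinf) (ren_CES N hN)).2 hf')).comp
    (iso_nth N hN), rcomp (rcomput (nth_comp N hN)) (rcomp hD' (rcomput (count_comp M)))⟩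

theorem finite_fun {f : ℕ → ℕ} {m : ℕ} (h : ∀ x, m ≤ x → f x = 0) : Computable f := by
  have h1 : Computable fun x => (((List.range m).map f)[x]?).getD 0 :=
    Primrec.option_getD.to_comp.comp (cgetElem (Computable.const _) Computable.id)
      (Computable.const 0)
  refine h1.of_eq fun x => ?_
  rcases Nat.lt_or_ge x m with hx | hx
  · rw [List.getElem?_map, List.getElem?_range hx]
    rfl
  · rw [List.getElem?_eq_none (by simpa using hx), h x hx]
    rfl

theorem fin_cls {M : CES} (hfin : (Set.ofPred M.A).Finite) (x : ℕ) : {y | M.E x y}.Finite :=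
  hfin.subset fun _ hy => (M.sub _ _ hy).2

theorem chi_false {P : ℕ → Prop} (h : ∀ x, ¬ P x) : Red (chi P) D := by
  have h1 : chi P = fun _ => 0 := by
    funext x
    unfold chi
    rw [if_neg (h x)]
  rw [h1]
  exact rcomput (Computable.const 0)

theorem fin_all (hD : Red chH D) {M : CES} (hfin : (Set.ofPred M.A).Finite) :
    P1 D M ∧ P2 D M ∧ P3 D M ∧ P4 D M := by
  have h3 : P3 D M := by
    intro V _ hf
    refine chi_false fun x hx => ?_
    have h1 := hf ⊤ (by simp)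
    have h2 : num M ⊤ = 0 := by
      unfold num
      rw [Set.encard_eq_zero, Set.eq_empty_iff_forall_notMem]
      rintro C ⟨⟨z, _, rfl⟩, h2⟩
      exact (Set.encard_eq_top_iff.1 h2) (fin_cls hfin z)
    rw [h2, nonpos_iff_eq_zero, Set.encard_eq_zero, Set.eq_empty_iff_forall_notMem] at h1
    exact h1 x (Set.encard_eq_top_iff.2 hx)
  refine ⟨?_, ?_, h3, p3_p4 hD h3⟩
  · rintro N ⟨f, hf⟩
    refine ⟨fun x => if M.A x then f x else 0, ⟨?_, ?_⟩, ?_⟩
    · exact hf.1.congr fun x hx => (if_pos hx).symm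
    · intro x y hx hy
      simp only [if_pos hx, if_pos hy]
      exact hf.2 x y hx hy
    · obtain ⟨m, hm⟩ := hfin.bddAbove
      refine rcomput (finite_fun (m := m + 1) fun x hx => ?_)
      rw [if_neg]
      intro h1
      have := hm h1
      omega
  · rintro N ⟨f, hf⟩
    refine chi_false fun x hx => ?_
    have hN : (Set.ofPred N.A).Finite := by
      have h2 : Set.ofPred N.A = f '' {x | M.A x} := hf.1.image_eq.symm
      rw [h2]
      exact hfin.image f
    exact hx (fin_cls hN x)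

/-- the characterisation -/
theorem char_gen (hD : Red chH D) (M : CES) : List.TFAE [P1 D M, P2 D M, P3 D M, P4 D M] := by
  by_cases hinf : (Set.ofPred M.A).Infinite
  · have hc : ∀ t, num M t = cnt (ren M) t := fun t => by
      rw [← num_ofE (ren_CES M hinf), ← num_iso (iso_nth M hinf)]
    have hch := char hD (ren_CES M hinf)
    tfae_have 1 → 3 := fun h => (p3_iff hc).2 ((hch.out 0 2).1 (p1_cat hinf h))
    tfae_have 3 → 4 := p3_p4 hD
    tfae_have 4 → 2 := fun h => c2_p2 hinf ((hch.out 3 1).1 (p4_c4 hc h))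
    tfae_have 2 → 1 := fun h => cat_p1 hinf ((hch.out 1 0).1 (p2_c2 hinf h))
    tfae_finish
  · obtain ⟨h1, h2, h3, h4⟩ := fin_all hD (Set.not_infinite.1 hinf)
    tfae_have 1 → 2 := fun _ => h2
    tfae_have 2 → 3 := fun _ => h3
    tfae_have 3 → 4 := fun _ => h4
    tfae_have 4 → 1 := fun _ => h1
    tfae_finish

end Pool.Agent.U44.EQ
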