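import Pool.Agent.U44.EQ.Build

/-!
# The numbers of classes of the copy
-/

set_option autoImplicit false

namespace Pool.Agent.U44.EQ

open Classical Filter

variable {E : ℕ → ℕ → Prop} {g : ℕ → ℕ → ℕ}

theorem ev_eq (hg : ∀ x, Monotone (g x)) (x n : ℕ) :
    ∀ᶠ u in atTop, (g x u = n ↔ lm g x = n) := by
  by_cases h : lm g x = n
  · obtain ⟨s0, hs0⟩ := lm_ev hg h
    filter_upwards [eventually_ge_atTop s0] with u hu
    exact ⟨fun _ => h, fun _ => hs0 u hu⟩
  · rcases lt_or_ge (n : ℕ∞) (lm g x) with h1 | h1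
    · obtain ⟨s, hs⟩ := lt_lm.1 h1
      filter_upwards [eventually_ge_atTop s] with u hu
      have := hg x hu
      exact ⟨fun h2 => by omega, fun h2 => absurd h2 h⟩
    · filter_upwards with u
      refine ⟨fun h2 => ?_, fun h2 => absurd h2 h⟩
      have h3 := le_lm (g := g) x u
      rw [h2] at h3
      exact le_antisymm h1 h3

theorem ev_count {P : ℕ → ℕ → Prop} [∀ u, DecidablePred fun k => P k u] {Q : ℕ → Prop}
    [DecidablePred Q] {m : ℕ}
    (h : ∀ k < m, ∀ᶠ u in atTop, (P k u ↔ Q k)) :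
    ∀ᶠ u in atTop, Nat.count (fun k => P k u) m = Nat.count Q m := by
  induction m with
  | zero => exact Eventually.of_forall fun u => by simp
  | succ m ih =>
    filter_upwards [ih fun k hk => h k (by omega), h m (by omega)] with u h1 h2
    rw [Nat.count_succ, Nat.count_succ, h1]
    by_cases h3 : Q m
    · rw [if_pos h3, if_pos (h2.2 h3)]
    · rw [if_neg h3, if_neg fun h4 => h3 (h2.1 h4)]

/-- the counting function of the classes -/
noncomputable def cE (E : ℕ → ℕ → Prop) (a s : ℕ) : ℕ := Nat.count (E a) s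

theorem cE_mono (E : ℕ → ℕ → Prop) (a : ℕ) : Monotone (cE E a) := Nat.count_monotone _

theorem lm_cE (E : ℕ → ℕ → Prop) (a : ℕ) : lm (cE E) a = sz E a := by
  apply le_antisymm
  · rw [lm_le]
    intro s
    unfold cE sz
    rw [Nat.count_eq_card_filter_range, ← Set.encard_coe_eq_coe_finsetCard]
    apply Set.encard_le_encard
    intro w hw
    exact (Finset.mem_filter.1 (Finset.mem_coe.1 hw)).2
  · by_contra h
    rw [not_le] at h
    have h1 : lm (cE E) a ≠ ⊤ := ne_top_of_lt h
    obtain ⟨n, hn⟩ := ENat.ne_top_iff_exists.1 h1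
    rw [← hn] at h
    have h2 : (n : ℕ∞) < Set.encard {y | E a y} := h
    obtain ⟨w, hw, hwn⟩ := exists_count h2
    have h3 : (cE E a (w + 1) : ℕ∞) ≤ n := by
      rw [hn]
      exact le_lm a (w + 1)
    unfold cE at h3
    rw [Nat.count_succ, if_pos hw, hwn] at h3
    have h4 : n + 1 ≤ n := by exact_mod_cast h3
    omega

/-- the permanent tasks of value `n` -/
def A (E : ℕ → ℕ → Prop) (n p : ℕ) : Prop := val p = n ∧ K E n (Nat.unpair p).1

theorem ev_alive {n p : ℕ} (hn : n ≠ 0) :
    ∀ᶠ u in atTop, (alive E p u ∧ val p = n ↔ A E n p) := by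
  by_cases h : val p = n
  · filter_upwards [ev_eq (cE_mono E) (Nat.unpair p).1 n] with u hu
    rw [lm_cE] at hu
    unfold cE at hu
    unfold alive A K
    rw [h, hu]
    tauto
  · filter_upwards with u
    unfold A
    tauto

theorem ev_act (hg : ∀ x, Monotone (g x)) {n p : ℕ} (hn : n ≠ 0) (hp : val p = n) :
    ∀ᶠ u in atTop, (act E g p u ↔ A E n p ∧
      Nat.count (fun x => lm g x = n) n ≤ Nat.count (A E n) p) := by
  have h1 : ∀ᶠ u in atTop, nF g n u = Nat.count (fun x => lm g x = n) n :=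
    ev_count (P := fun k u => g k u = n) fun k _ => ev_eq hg k n
  have h2 : ∀ᶠ u in atTop, nC E p u = Nat.count (A E n) p := by
    have h3 : ∀ᶠ u in atTop, Nat.count (fun p' => alive E p' u ∧ val p' = n) p =
        Nat.count (A E n) p := ev_count (P := fun k u => alive E k u ∧ val k = n)
        fun k _ => ev_alive hn
    filter_upwards [h3] with u hu
    rw [← hu]
    unfold nC
    rw [hp]
  filter_upwards [h1, h2, ev_alive (E := E) (p := p) hn] with u h3 h4 h5
  unfold act
  rw [hp, h3, h4, ← h5]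
  tauto

/-! ### the limits of the size function -/

theorem lm_GG0 (r : ℕ) : lm (GG E g) (Nat.pair 0 r) = ⊤ := by
  rw [lm_eq_top]
  intro n
  refine ⟨n, ?_⟩
  unfold GG
  rw [if_pos (by simp)]
  omega

theorem GG1 (r s : ℕ) : GG E g (Nat.pair 1 r) s = if r < g r s then g r s else 0 := by
  unfold GG
  simp

theorem lm_GG1 (hg : ∀ x, Monotone (g x)) {r : ℕ} {n : ℕ∞} (hn : n ≠ 0) :
    lm (GG E g) (Nat.pair 1 r) = n ↔ lm g r = n ∧ (r : ℕ∞) < n := by
  have h1 : lm (GG E g) (Nat.pair 1 r) = if (r : ℕ∞) < lm g r then lm g r else 0 := by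
    split_ifs with h
    · apply le_antisymm
      · rw [lm_le]
        intro s
        rw [GG1]
        split_ifs
        · exact le_lm r s
        · exact bot_le
      · rw [lm_le]
        intro s
        obtain ⟨s0, hs0⟩ := lt_lm.1 h
        have h2 := hg r (le_max_left s s0)
        have h3 := hg r (le_max_right s s0)
        have h4 : GG E g (Nat.pair 1 r) (max s s0) = g r (max s s0) := by
          rw [GG1, if_pos (by omega)]
        calc (g r s : ℕ∞) ≤ (g r (max s s0) : ℕ∞) := by exact_mod_cast h2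
          _ = (GG E g (Nat.pair 1 r) (max s s0) : ℕ∞) := by rw [h4]
          _ ≤ _ := le_lm _ _
    · apply le_antisymm _ bot_le
      rw [lm_le]
      intro s
      rw [GG1, if_neg]
      · exact le_rfl
      · intro h2
        exact h (lt_lm.2 ⟨s, h2⟩)
  rw [h1]
  split_ifs with h
  · constructor
    · rintro rfl
      exact ⟨rfl, h⟩
    · exact fun h2 => h2.1
  · constructor
    · intro h2
      exact absurd h2.symm hn
    · rintro ⟨h2, h3⟩
      rw [h2] at h
      exact absurd h3 h

theorem GG2 (p t s : ℕ) : GG E g (Nat.pair (p + 2) t) s =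
    if stt E g p t ∧ t ≤ s then (if ∀ u < s + 1, t ≤ u → act E g p u then val p
      else s + 1 + val p) else 0 := by
  unfold GG
  simp only [Nat.unpair_pair]
  rw [if_neg (by omega), if_neg (by omega)]
  simp

theorem lm_GG2 (p t : ℕ) : lm (GG E g) (Nat.pair (p + 2) t) =
    if stt E g p t then (if ∀ u, t ≤ u → act E g p u then (val p : ℕ∞) else ⊤) else 0 := by
  split_ifs with h1 h2
  · apply le_antisymm
    · rw [lm_le]
      intro s
      rw [GG2]
      split_ifs with h3 h4
      · exact le_rfl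
      · exact absurd (fun u _ hu => h2 u hu) h4
      · exact bot_le
    · have h3 : GG E g (Nat.pair (p + 2) t) t = val p := by
        rw [GG2, if_pos ⟨h1, le_rfl⟩, if_pos fun u _ hu => h2 u hu]
      calc (val p : ℕ∞) = (GG E g (Nat.pair (p + 2) t) t : ℕ∞) := by rw [h3]
        _ ≤ _ := le_lm _ _
  · push Not at h2
    obtain ⟨u, hu1, hu2⟩ := h2
    rw [lm_eq_top]
    intro n
    refine ⟨max n u, ?_⟩
    have h3 : ¬ ∀ u' < max n u + 1, t ≤ u' → act E g p u' := fun h4 => hu2 (h4 u (by omega) hu1)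
    rw [GG2, if_pos ⟨h1, hu1.trans (le_max_right _ _)⟩, if_neg h3]
    have := le_max_left n u
    omega
  · apply le_antisymm _ bot_le
    rw [lm_le]
    intro s
    rw [GG2, if_neg fun h2 => h1 h2.1]
    exact le_rfl

/-! ### counting -/

theorem encard_A (hE : Equivalence E) (n : ℕ) : Set.encard {p | A E n p} = cnt E n := by
  rw [cnt_eq hE]
  have h1 : {p | A E n p} = (fun a => Nat.pair a n) '' {w | K E n w} := by
    ext p
    constructor
    · rintro ⟨h1, h2⟩
      refine ⟨(Nat.unpair p).1, h2, ?_⟩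
      simp only
      rw [← h1]
      exact Nat.pair_unpair p
    · rintro ⟨a, ha, rfl⟩
      exact ⟨by simp [val], by simpa using ha⟩
  rw [h1, Set.InjOn.encard_image]
  intro a _ a' _ h
  have := congrArg (fun z => (Nat.unpair z).1) h
  simpa using this

theorem encard_T (hg : ∀ x, Monotone (g x)) {n : ℕ} (hn : n ≠ 0) :
    Set.encard {i | 2 ≤ (Nat.unpair i).1 ∧ lm (GG E g) i = n} =
      Set.encard {p | A E n p ∧ Nat.count (fun x => lm g x = n) n ≤ Nat.count (A E n) p} := by
  have key : ∀ i, (2 ≤ (Nat.unpair i).1 ∧ lm (GG E g) i = n) →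
      stt E g ((Nat.unpair i).1 - 2) (Nat.unpair i).2 ∧
      (∀ u, (Nat.unpair i).2 ≤ u → act E g ((Nat.unpair i).1 - 2) u) ∧
      val ((Nat.unpair i).1 - 2) = n := by
    rintro i ⟨h1, h2⟩
    obtain ⟨p, hp⟩ : ∃ p, (Nat.unpair i).1 = p + 2 := ⟨(Nat.unpair i).1 - 2, by omega⟩
    have h3 : i = Nat.pair (p + 2) (Nat.unpair i).2 := by rw [← hp, Nat.pair_unpair]
    rw [h3, lm_GG2] at h2
    rw [hp, Nat.add_sub_cancel]
    split_ifs at h2 with h4 h5
    · exact ⟨h4, h5, by exact_mod_cast h2⟩
    · exact absurd h2.symm (ENat.natCast_ne_top n)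
    · exact absurd h2.symm (by exact_mod_cast hn)
  have h1 : (fun i => (Nat.unpair i).1 - 2) '' {i | 2 ≤ (Nat.unpair i).1 ∧ lm (GG E g) i = n} =
      {p | A E n p ∧ Nat.count (fun x => lm g x = n) n ≤ Nat.count (A E n) p} := by
    ext p
    constructor
    · rintro ⟨i, hi, rfl⟩
      obtain ⟨h2, h3, h4⟩ := key i hi
      obtain ⟨u, hu1, hu2⟩ := ((ev_act (E := E) hg hn h4).and (eventually_ge_atTop
        (Nat.unpair i).2)).exists
      exact hu1.1 (h3 u hu2)
    · intro hp
      have hv : val p = n := hp.1.1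
      obtain ⟨U, hU⟩ := eventually_atTop.1 (ev_act (E := E) hg hn hv)
      have hex : ∃ t, ∀ u, t ≤ u → act E g p u := ⟨U, fun u hu => (hU u hu).2 hp⟩
      have ht := Nat.find_spec hex
      have hmin := fun m (hm : m < Nat.find hex) => Nat.find_min hex hm
      set t := Nat.find hex with htdef
      have hst : stt E g p t := by
        refine ⟨ht t le_rfl, ?_⟩
        by_contra hcon
        push Not at hcon
        refine hmin (t - 1) (by omega) fun u hu => ?_
        rcases eq_or_lt_of_le hu with h | h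
        · rw [← h]; exact hcon.2
        · exact ht u (by omega)
      refine ⟨Nat.pair (p + 2) t, ⟨by simp, ?_⟩, by simp⟩
      rw [lm_GG2, if_pos hst, if_pos ht, hv]
  rw [← h1, Set.InjOn.encard_image]
  intro i hi i' hi' hii
  simp only at hii
  obtain ⟨h2, h3, h4⟩ := key i hi
  obtain ⟨h2', h3', h4'⟩ := key i' hi'
  have hi1 := hi.1
  have hi1' := hi'.1
  rw [← hii] at h2' h3'
  have ht : (Nat.unpair i).2 = (Nat.unpair i').2 := by
    rcases lt_trichotomy (Nat.unpair i).2 (Nat.unpair i').2 with h | h | h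
    · rcases h2'.2 with h5 | h5
      · omega
      · exact absurd (h3 _ (by omega)) h5
    · exact h
    · rcases h2.2 with h5 | h5
      · omega
      · exact absurd (h3' _ (by omega)) h5
  rw [← Nat.pair_unpair i, ← Nat.pair_unpair i', ht]
  congr 1
  omega

theorem encard_cnt (p : ℕ → Prop) [DecidablePred p] (n : ℕ) :
    Set.encard {x | x < n ∧ p x} = (Nat.count p n : ℕ∞) := by
  have h1 : ({x | x < n ∧ p x} : Set ℕ) = (((Finset.range n).filter p : Finset ℕ) : Set ℕ) := by
    ext x
    simp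
  rw [h1, Set.encard_coe_eq_coe_finsetCard, ← Nat.count_eq_card_filter_range]

theorem cnt_fin (hE : Equivalence E) (hg : ∀ x, Monotone (g x)) (he : Emb E g) {n : ℕ}
    (hn : n ≠ 0) : Set.encard {i | lm (GG E g) i = n} = cnt E n := by
  have hsplit : {i | lm (GG E g) i = n} = (Nat.pair 1 '' {x | x < n ∧ lm g x = n}) ∪
      {i | 2 ≤ (Nat.unpair i).1 ∧ lm (GG E g) i = n} := by
    ext i
    simp only [Set.mem_union, Set.mem_image, Set.mem_ofPred_eq]
    constructor
    · intro hi
      rcases Nat.lt_or_ge (Nat.unpair i).1 2 with h | h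
      · left
        have h0 : (Nat.unpair i).1 ≠ 0 := by
          intro h0
          have h3 : i = Nat.pair 0 (Nat.unpair i).2 := by rw [← h0, Nat.pair_unpair]
          rw [h3, lm_GG0] at hi
          exact absurd hi.symm (ENat.natCast_ne_top n)
        have h1 : (Nat.unpair i).1 = 1 := by omega
        have h3 : i = Nat.pair 1 (Nat.unpair i).2 := by rw [← h1, Nat.pair_unpair]
        rw [h3, lm_GG1 hg (by exact_mod_cast hn)] at hi
        exact ⟨(Nat.unpair i).2, ⟨by exact_mod_cast hi.2, hi.1⟩, h3.symm⟩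
      · exact Or.inr ⟨h, hi⟩
    · rintro (⟨x, ⟨h1, h2⟩, rfl⟩ | h)
      · rw [lm_GG1 hg (by exact_mod_cast hn)]
        exact ⟨h2, by exact_mod_cast h1⟩
      · exact h.2
  have hdisj : Disjoint (Nat.pair 1 '' {x | x < n ∧ lm g x = n})
      {i | 2 ≤ (Nat.unpair i).1 ∧ lm (GG E g) i = n} := by
    rw [Set.disjoint_left]
    rintro _ ⟨x, _, rfl⟩ ⟨h, _⟩
    simp at h
  rw [hsplit, Set.encard_union_eq hdisj, encard_T hg hn, Set.InjOn.encard_image, encard_cnt,
    encard_rest (p := A E n), encard_A hE]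
  · rw [encard_A hE]
    refine le_trans ?_ (he n (by exact_mod_cast hn))
    rw [← encard_cnt]
    exact Set.encard_le_encard fun x hx => hx.2
  · intro x _ y _ hxy
    have := congrArg (fun z => (Nat.unpair z).2) hxy
    simpa using this

theorem cnt_top : Set.encard {i | lm (GG E g) i = ⊤} = ⊤ := by
  rw [Set.encard_eq_top_iff]
  refine Set.infinite_of_injective_forall_mem (f := fun r => Nat.pair 0 r) ?_ fun r => lm_GG0 r
  intro x y hxy
  have := congrArg (fun z => (Nat.unpair z).2) hxy
  simpa using this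

theorem cnt_GG (hE : Equivalence E) (hg : ∀ x, Monotone (g x)) (he : Emb E g)
    (htop : cnt E ⊤ = ⊤) {t : ℕ∞} (ht : t ≠ 0) : cnt E t = Set.encard {i | lm (GG E g) i = t} := by
  rcases eq_or_ne t ⊤ with rfl | h
  · rw [htop, cnt_top]
  · obtain ⟨n, rfl⟩ := ENat.ne_top_iff_exists.1 h
    rw [cnt_fin hE hg he (by exact_mod_cast ht)]

end Pool.Agent.U44.EQ
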