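import Pool.Agent.U44.EQ.Or

/-!
# The characterisation
-/

set_option autoImplicit false

namespace Pool.Agent.U44.EQ

open Classical
open Pool.Agent.Helper446 Pool.Agent.Helper446.RE
open Pool.Agent.U44.TD (chH red_chH_of_re)
open Pool.Agent.Helper583.TC (orc Red)
open Pool.Agent.Helper583.TC.J3 (ri_comp ri_pair ri_comput ri_prim ri_pre ri_search)

variable {D : ℕ → ℕ} {E B : ℕ → ℕ → Prop}

/-- `D`-computable categoricity -/
def Cat (D : ℕ → ℕ) (E : ℕ → ℕ → Prop) : Prop :=
  ∀ B, IsCES B → (∃ f, IsIso E B f) → ∃ f, IsIso E B f ∧ Red f D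

/-- the infinite part of every computable copy is computable in `D` -/
def C2 (D : ℕ → ℕ) (E : ℕ → ℕ → Prop) : Prop :=
  ∀ B, IsCES B → (∃ f, IsIso E B f) → Red (infE B) D

/-- the infinite part of every embedded approximation is computable in `D` -/
def C3 (D : ℕ → ℕ) (E : ℕ → ℕ → Prop) : Prop :=
  ∀ g, LM g → Emb E g → Red (chi fun x => lm g x = ⊤) D

/-- the finite values of every embedded approximation are bounded by a function computable
in `D` -/
def C4 (D : ℕ → ℕ) (E : ℕ → ℕ → Prop) : Prop :=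
  ∀ g, LM g → Emb E g → ∃ h : ℕ → ℕ, Red h D ∧ ∀ x, lm g x ≠ ⊤ → lm g x ≤ h x

theorem c3_c4 (hD : Red chH D) (h : C3 D E) : C4 D E := by
  intro g hg he
  refine ⟨fun x => (lm g x).toNat, red_lim hD hg (h g hg he), fun x hx => ?_⟩
  exact (ENat.natCast_toNat hx).ge

theorem c4_c2 (hD : Red chH D) (h : C4 D E) : C2 D E := by
  intro B hB hiso
  obtain ⟨f, hf⟩ := hiso
  have hmn := mn_computable hB
  have hcE : Computable fun x : ℕ × ℕ => Nat.count (B x.1) x.2 :=
    cE_computable hB (f := fun x : ℕ × ℕ => x.1) (h := fun x : ℕ × ℕ => x.2) (by fun_prop)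
      (by fun_prop)
  obtain ⟨g, hgdef⟩ : ∃ g : ℕ → ℕ → ℕ, ∀ x s, g x s =
      if mn B x = x then Nat.count (B x) s else 0 := ⟨_, fun _ _ => rfl⟩
  have hg : LM g := by
    constructor
    · have h1 : Computable fun x : ℕ × ℕ => if mn B x.1 = x.1 then Nat.count (B x.1) x.2 else 0 :=
        cite (cp_eq (by fun_prop) (by fun_prop)) hcE (by fun_prop)
      exact h1.of_eq fun x => (hgdef x.1 x.2).symm
    · intro x s s' hs
      rw [hgdef, hgdef]
      split_ifs
      · exact cE_mono B x hs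
      · exact le_rfl
  have hlm : ∀ x, lm g x = if mn B x = x then sz B x else 0 := by
    intro x
    split_ifs with h1
    · rw [← lm_cE]
      unfold lm
      congr 1
      funext s
      rw [hgdef, if_pos h1]
      rfl
    · apply le_antisymm _ bot_le
      rw [lm_le]
      intro s
      rw [hgdef, if_neg h1]
      exact le_rfl
  have he : Emb E g := by
    intro n hn
    rw [cnt_iso hf, cnt_eq hB.1]
    apply Set.encard_le_encard
    intro x hx
    have hx' : lm g x = n := hx
    rw [hlm] at hx'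
    split_ifs at hx' with h1
    · exact ⟨h1, hx'⟩
    · exact absurd hx'.symm hn
  obtain ⟨b, hb, hbd⟩ := h g hg he
  have hP : Red (chi fun z : ℕ => ∃ s, (Nat.unpair z).2 < Nat.count (B (Nat.unpair z).1) s) D := by
    refine rre hD (RE.exN (p := fun (z : ℕ) s => (Nat.unpair z).2 <
      Nat.count (B (Nat.unpair z).1) s) ?_)
    exact RE.lt (by fun_prop) (cE_computable hB (f := fun x : ℕ × ℕ => (Nat.unpair x.1).1)
      (h := fun x : ℕ × ℕ => x.2) (by fun_prop) (by fun_prop))
  have h1 := chi_comp hP (ri_pair (rcomput hmn) (rcomp hb (rcomput hmn)))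
  have h2 : infE B = chi fun n => ∃ s, (Nat.unpair (Nat.pair (mn B n) (b (mn B n)))).2 <
      Nat.count (B (Nat.unpair (Nat.pair (mn B n) (b (mn B n)))).1) s := by
    unfold infE chi
    funext x
    congr 1
    rw [eq_iff_iff]
    simp only [Nat.unpair_pair]
    have h3 : (∃ s, b (mn B x) < Nat.count (B (mn B x)) s) ↔ (b (mn B x) : ℕ∞) < sz B x := by
      rw [sz_eq hB.1 (rel_mn hB.1 x), ← lm_cE, lt_lm]
      rfl
    rw [h3]
    constructor
    · intro h4
      rw [h4]
      exact ENat.natCast_lt_top _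
    · intro h4
      by_contra h5
      have h6 : lm g (mn B x) = sz B x := by
        rw [hlm, if_pos (mn_mn hB.1 x), ← sz_eq hB.1 (rel_mn hB.1 x)]
      have h7 := hbd (mn B x) (by rw [h6]; exact h5)
      rw [h6] at h7
      exact absurd h4 (not_lt.2 h7)
  rw [h2]
  exact h1

theorem isIso_id (E : ℕ → ℕ → Prop) : IsIso E E id :=
  ⟨Function.bijective_id, fun _ _ => Iff.rfl⟩

theorem c2_c1 (hD : Red chH D) (hE : IsCES E) (h : C2 D E) : Cat D E := by
  intro B hB hiso
  exact iso_of_inf hD hE hB (fun t _ => cnt_iso hiso.choose_spec t) (h E hE ⟨id, isIso_id E⟩)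
    (h B hB hiso)

/-- the constant zero approximation -/
def g0 : ℕ → ℕ → ℕ := fun _ _ => 0

theorem lm_g0 (x : ℕ) : lm g0 x = 0 := by
  apply le_antisymm _ bot_le
  rw [lm_le]
  intro s
  exact le_rfl

theorem LM_g0 : LM g0 := ⟨Computable.const 0, fun _ _ _ _ => le_rfl⟩

theorem Emb_g0 (E : ℕ → ℕ → Prop) : Emb E g0 := by
  intro n hn
  have h1 : ({x | lm g0 x = n} : Set ℕ) = ∅ := by
    rw [Set.eq_empty_iff_forall_notMem]
    intro x hx
    have h2 : lm g0 x = n := hx
    rw [lm_g0] at h2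
    exact hn h2.symm
  rw [h1, Set.encard_empty]
  exact bot_le

theorem lm_top_iff (i : ℕ) : lm (GG E g0) i = ⊤ ↔ (Nat.unpair i).1 = 0 ∨
    ((2 ≤ (Nat.unpair i).1 ∧ stt E g0 ((Nat.unpair i).1 - 2) (Nat.unpair i).2) ∧
      ∃ u, (Nat.unpair i).2 ≤ u ∧ ¬ act E g0 ((Nat.unpair i).1 - 2) u) := by
  obtain ⟨c, hc⟩ : ∃ c, (Nat.unpair i).1 = c := ⟨_, rfl⟩
  obtain ⟨r, hr⟩ : ∃ r, (Nat.unpair i).2 = r := ⟨_, rfl⟩
  have hi : i = Nat.pair c r := by rw [← hc, ← hr, Nat.pair_unpair]
  rw [hi]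
  simp only [Nat.unpair_pair]
  match c with
  | 0 => exact ⟨fun _ => Or.inl rfl, fun _ => lm_GG0 r⟩
  | 1 =>
    rw [lm_GG1 LM_g0.2 (by simp), lm_g0]
    constructor
    · rintro ⟨h, _⟩
      exact absurd h (by simp)
    · rintro (h | ⟨⟨h, _⟩, _⟩) <;> omega
  | p + 2 =>
    rw [lm_GG2]
    simp only [Nat.add_sub_cancel]
    constructor
    · intro h
      right
      split_ifs at h with h1 h2
      · exact absurd h (ENat.natCast_ne_top _)
      · push Not at h2
        exact ⟨⟨by omega, h1⟩, h2⟩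
      · exact absurd h (by simp)
    · rintro (h | ⟨⟨_, h1⟩, u, h2, h3⟩)
      · omega
      · rw [if_pos h1, if_neg fun h4 => h3 (h4 u h2)]

theorem re_W (hE : IsCES E) {g : ℕ → ℕ → ℕ} (hg : Computable₂ g) :
    REPred fun i : ℕ => (Nat.unpair i).1 = 0 ∨
    ((2 ≤ (Nat.unpair i).1 ∧ stt E g ((Nat.unpair i).1 - 2) (Nat.unpair i).2) ∧
      ∃ u, (Nat.unpair i).2 ≤ u ∧ ¬ act E g ((Nat.unpair i).1 - 2) u) := by
  have k1 : REPred fun i : ℕ => (Nat.unpair i).1 = 0 := RE.eq (by fun_prop) (by fun_prop)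
  have k2 : REPred fun i : ℕ => 2 ≤ (Nat.unpair i).1 := RE.le (by fun_prop) (by fun_prop)
  have k3 : ComputablePred fun i : ℕ => stt E g ((Nat.unpair i).1 - 2) (Nat.unpair i).2 :=
    cp_comp (p := fun x : ℕ × ℕ => stt E g x.1 x.2) (stt_computable hE hg)
      (by fun_prop : Computable fun i : ℕ => ((Nat.unpair i).1 - 2, (Nat.unpair i).2))
  have k4 : REPred fun x : ℕ × ℕ => (Nat.unpair x.1).2 ≤ x.2 :=
    RE.le (by fun_prop) (by fun_prop)
  have k5 : ComputablePred fun x : ℕ × ℕ => act E g ((Nat.unpair x.1).1 - 2) x.2 :=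
    cp_comp (p := fun x : ℕ × ℕ => act E g x.1 x.2) (act_computable hE hg)
      (by fun_prop : Computable fun x : ℕ × ℕ => ((Nat.unpair x.1).1 - 2, x.2))
  have k6 : REPred fun i : ℕ => ∃ u, (Nat.unpair i).2 ≤ u ∧
      ¬ act E g ((Nat.unpair i).1 - 2) u := RE.exN (RE.and k4 k5.not.to_re)
  exact RE.or k1 (RE.and (RE.and k2 k3.to_re) k6)

theorem re_top (hE : IsCES E) : REPred fun i => lm (GG E g0) i = ⊤ :=
  (re_W hE LM_g0.1).of_eq fun i => (lm_top_iff i).symm

theorem c1_c3 (hD : Red chH D) (hE : IsCES E) (h : Cat D E) : C3 D E := by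
  intro g hg he
  by_cases htop : cnt E ⊤ = ⊤
  swap
  · have h1 : (Set.ofPred fun x => lm g x = ⊤).Finite := by
      have h2 := he ⊤ (by simp)
      by_contra h3
      have h4 : Set.encard {x | lm g x = ⊤} = ⊤ := Set.encard_eq_top_iff.2 h3
      rw [h4, top_le_iff] at h2
      exact htop h2
    refine chi_of_cp ?_
    have h5 := cp_mem (f := fun x : ℕ => x) (l := fun _ : ℕ => h1.toFinset.toList) (by fun_prop)
      (by fun_prop)
    refine h5.of_eq fun x => ?_
    simp
  have hgc : Computable fun p : ℕ × ℕ => g p.1 p.2 := hg.1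
  have hG : LM (GG E g) := ⟨GG_computable hE hg.1, GG_mono hg.2⟩
  have hG0 : LM (GG E g0) := ⟨GG_computable hE LM_g0.1, GG_mono LM_g0.2⟩
  obtain ⟨idx, hidx, hcard⟩ := realize hG (lm_GG0 0)
  obtain ⟨idx0, hidx0, hcard0⟩ := realize hG0 (lm_GG0 0)
  obtain ⟨f1, hf1, hf1D⟩ := h (st idx) (isCES_st hidx) (exists_iso hE.1 (isCES_st hidx).1
    fun t ht => by rw [cnt_st hcard ht, ← cnt_GG hE.1 hg.2 he htop ht])
  obtain ⟨f2, hf2, hf2D⟩ := h (st idx0) (isCES_st hidx0) (exists_iso hE.1 (isCES_st hidx0).1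
    fun t ht => by rw [cnt_st hcard0 ht, ← cnt_GG hE.1 LM_g0.2 (Emb_g0 E) htop ht])
  -- the inverse of `f1`
  choose f3 hf3 using hf1.1.2
  have hf3D : Red f3 D := by
    have h1 : Red (chi fun z : ℕ => f1 (Nat.unpair z).2 = (Nat.unpair z).1) D := by
      have h4 : Red (chi fun z : ℕ => (Nat.unpair z).1 = (Nat.unpair z).2) D :=
        chi_of_cp (cp_eq (by fun_prop) (by fun_prop))
      have h5 := chi_comp h4 (ri_pair (rcomp hf1D (rcomput (by fun_prop :
        Computable fun z : ℕ => (Nat.unpair z).2))) (rcomput (by fun_prop :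
        Computable fun z : ℕ => (Nat.unpair z).1)))
      simpa using h5
    have hQ := rite h1 (rcomput (by fun_prop : Computable fun z : ℕ => (Nat.unpair z).2 + 1))
      (rcomput (Computable.const 0))
    refine ri_search hQ ?_ ?_
    · intro z
      refine ⟨f3 z, ?_⟩
      simp only [Nat.unpair_pair]
      rw [if_pos (hf3 z)]
      omega
    · intro z x hne
      simp only [Nat.unpair_pair] at hne ⊢
      split_ifs at hne ⊢ with h4
      · rw [hf1.1.1 (h4.trans (hf3 z).symm)]
      · exact absurd rfl hne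
  have hinf0 : Red (infE (st idx0)) D := by
    have h1 : REPred fun x => sz (st idx0) x = ⊤ :=
      (RE.comp (re_top hE) hidx0).of_eq fun x => by rw [sz_st hcard0]
    exact rre hD h1
  have hinf : Red (infE (st idx)) D := by
    have h1 := rcomp hinf0 (rcomp hf2D hf3D)
    have h2 : infE (st idx) = fun n => infE (st idx0) (f2 (f3 n)) := by
      funext z
      unfold infE chi
      congr 1
      show (sz (st idx) z = ⊤) = (sz (st idx0) (f2 (f3 z)) = ⊤)
      rw [sz_iso hf2, ← sz_iso hf1, hf3]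
    rw [h2]
    exact h1
  -- the search
  have h1 : Red (chi fun z : ℕ => idx (Nat.unpair z).2 = Nat.pair 1 (Nat.unpair z).1) D :=
    chi_of_cp (cp_eq (by fun_prop) (by fun_prop))
  have h2 : Red (chi fun z : ℕ => ∃ s, (Nat.unpair z).1 < g (Nat.unpair z).1 s) D := by
    refine rre hD (RE.exN (p := fun (z : ℕ) s => (Nat.unpair z).1 < g (Nat.unpair z).1 s) ?_)
    exact RE.lt (by fun_prop) (hgc.comp (by fun_prop : Computable fun x : ℕ × ℕ =>
      ((Nat.unpair x.1).1, x.2)))
  have h3 : Red (fun z : ℕ => infE (st idx) (Nat.unpair z).2 + 1) D :=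
    rcomp (f := fun n => n + 1) (rcomput (by fun_prop)) (rcomp hinf (rcomput (by fun_prop :
      Computable fun z : ℕ => (Nat.unpair z).2)))
  have hQ := rite h1 h3 (rite h2 (rcomput (Computable.const 0)) (rcomput (Computable.const 1)))
  refine ri_search hQ ?_ ?_
  · intro x
    by_cases hx : ∃ s, x < g x s
    · have h4 : lm g x ≠ 0 := by
        intro h5
        have h6 := lt_lm.2 hx
        rw [h5] at h6
        exact absurd h6 (by simp)
      have h5 : lm (GG E g) (Nat.pair 1 x) = lm g x :=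
        (lm_GG1 hg.2 h4).2 ⟨rfl, lt_lm.2 hx⟩
      have h6 : Set.Nonempty {z | idx z = Nat.pair 1 x} := by
        rw [← Set.encard_ne_zero, hcard, h5]
        exact h4
      obtain ⟨z, hz⟩ := h6
      refine ⟨z, ?_⟩
      have hz' : idx z = Nat.pair 1 x := hz
      simp only [Nat.unpair_pair]
      rw [if_pos hz']
      omega
    · refine ⟨0, ?_⟩
      simp only [Nat.unpair_pair]
      split_ifs <;> omega
  · intro x z hne
    simp only [Nat.unpair_pair] at hne ⊢
    by_cases h4 : idx z = Nat.pair 1 x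
    · rw [if_pos h4] at hne ⊢
      congr 1
      unfold infE chi
      congr 1
      show (sz (st idx) z = ⊤) = (lm g x = ⊤)
      rw [sz_st hcard, h4]
      have h5 : lm (GG E g) (Nat.pair 1 x) ≠ 0 := by
        rw [← hcard, Set.encard_ne_zero]
        exact ⟨z, h4⟩
      rw [← ((lm_GG1 (E := E) hg.2 h5).1 rfl).1]
    · rw [if_neg h4] at hne ⊢
      by_cases h5 : ∃ s, x < g x s
      · rw [if_pos h5] at hne
        exact absurd rfl hne
      · rw [if_neg h5]
        unfold chi
        rw [if_neg]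
        intro h6
        exact h5 (lm_eq_top.1 h6 x)

/-- the characterisation -/
theorem char (hD : Red chH D) (hE : IsCES E) :
    List.TFAE [Cat D E, C2 D E, C3 D E, C4 D E] := by
  tfae_have 1 → 3 := c1_c3 hD hE
  tfae_have 3 → 4 := c3_c4 hD
  tfae_have 4 → 2 := c4_c2 hD
  tfae_have 2 → 1 := c2_c1 hD hE
  tfae_finish

end Pool.Agent.U44.EQ
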