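import Pool.Agent.U44.EQ.Lim

/-!
# Functions computable in an oracle above the halting problem
-/

set_option autoImplicit false

namespace Pool.Agent.U44.EQ

open Classical
open Pool.Agent.Helper446 Pool.Agent.Helper446.RE
open Pool.Agent.U44.TD (chH red_chH_of_re)
open Pool.Agent.Helper583.TC (orc Red)
open Pool.Agent.Helper583.TC.J3 (ri_comp ri_pair ri_comput ri_prim ri_pre ri_search)

/-- the characteristic function -/
noncomputable def chi (P : ℕ → Prop) (n : ℕ) : ℕ := if P n then 1 else 0

variable {D : ℕ → ℕ}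

theorem rtrans {f g h : ℕ → ℕ} (h1 : Red f g) (h2 : Red g h) : Red f h := by
  unfold Red at *
  exact h1.subst fun g hg => by rw [Set.mem_singleton_iff.1 hg]; exact h2

theorem rre (hD : Red chH D) {P : ℕ → Prop} (hP : REPred P) : Red (chi P) D :=
  rtrans (red_chH_of_re hP) hD

theorem rcomp {f g : ℕ → ℕ} (hf : Red f D) (hg : Red g D) : Red (fun n => f (g n)) D :=
  ri_comp hf hg

theorem rcomput {f : ℕ → ℕ} (hf : Computable f) : Red f D := ri_comput hf

theorem chi_comp {P : ℕ → Prop} {g : ℕ → ℕ} (hP : Red (chi P) D) (hg : Red g D) :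
    Red (chi fun n => P (g n)) D := rcomp (f := chi P) (g := g) hP hg

theorem rite {P : ℕ → Prop} {f g : ℕ → ℕ} (hP : Red (chi P) D) (hf : Red f D) (hg : Red g D) :
    Red (fun n => if P n then f n else g n) D := by
  have hF : Computable fun q : ℕ => if (Nat.unpair q).1 = 1 then
      (Nat.unpair (Nat.unpair q).2).1 else (Nat.unpair (Nat.unpair q).2).2 :=
    cite (cp_eq (by fun_prop) (by fun_prop)) (by fun_prop) (by fun_prop)
  have h1 := rcomp (rcomput (D := D) hF) (ri_pair hP (ri_pair hf hg))
  have h2 : (fun n => if P n then f n else g n) = fun n => (fun q : ℕ =>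
      if (Nat.unpair q).1 = 1 then (Nat.unpair (Nat.unpair q).2).1 else
        (Nat.unpair (Nat.unpair q).2).2) (Nat.pair (chi P n) (Nat.pair (f n) (g n))) := by
    funext n
    simp only [Nat.unpair_pair, chi]
    by_cases h : P n
    · simp [h]
    · simp [h]
  rw [h2]
  exact h1

theorem chi_not {P : ℕ → Prop} (hP : Red (chi P) D) : Red (chi fun n => ¬ P n) D := by
  have h1 := rite hP (rcomput (Computable.const 0)) (rcomput (Computable.const 1))
  have h2 : (chi fun n => ¬ P n) = fun n => if P n then 0 else 1 := by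
    funext n
    unfold chi
    by_cases h : P n <;> simp [h]
  rw [h2]
  exact h1

theorem chi_of_cp {P : ℕ → Prop} (hP : ComputablePred P) : Red (chi P) D :=
  rcomput (cite hP (Computable.const 1) (Computable.const 0))

/-- the search for the value of the limit -/
theorem red_lim (hD : Red chH D) {g : ℕ → ℕ → ℕ} (hg : LM g)
    (hi : Red (chi fun x => lm g x = ⊤) D) : Red (fun x => (lm g x).toNat) D := by
  have hgc : Computable fun p : ℕ × ℕ => g p.1 p.2 := hg.1
  have h1 : Red (chi fun z : ℕ => ∃ s, (Nat.unpair z).2 < g (Nat.unpair z).1 s) D := by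
    refine rre hD (RE.exN (p := fun (z : ℕ) s => (Nat.unpair z).2 < g (Nat.unpair z).1 s) ?_)
    exact RE.lt (by fun_prop) (hgc.comp (by fun_prop : Computable fun x : ℕ × ℕ =>
      ((Nat.unpair x.1).1, x.2)))
  have h2 : Red (chi fun z : ℕ => ∃ s, (Nat.unpair z).2 ≤ g (Nat.unpair z).1 s) D := by
    refine rre hD (RE.exN (p := fun (z : ℕ) s => (Nat.unpair z).2 ≤ g (Nat.unpair z).1 s) ?_)
    exact RE.le (by fun_prop) (hgc.comp (by fun_prop : Computable fun x : ℕ × ℕ =>
      ((Nat.unpair x.1).1, x.2)))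
  have h3 : Red (chi fun z : ℕ => lm g (Nat.unpair z).1 = ⊤) D :=
    chi_comp hi (rcomput (by fun_prop))
  have hQ := rite h3 (rcomput (Computable.const 1)) (rite h1 (rcomput (Computable.const 0))
    (rite h2 (rcomput (by fun_prop : Computable fun z : ℕ => (Nat.unpair z).2 + 1))
      (rcomput (Computable.const 0))))
  refine ri_search hQ ?_ ?_
  · intro x
    by_cases hx : lm g x = ⊤
    · exact ⟨0, by simp [hx]⟩
    · obtain ⟨n, hn⟩ := ENat.ne_top_iff_exists.1 hx
      obtain ⟨s0, hs0⟩ := lm_ev hg.2 hn.symm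
      refine ⟨n, ?_⟩
      have h4 : ¬ ∃ s, n < g x s := by
        rintro ⟨s, hs⟩
        have := lt_lm.2 ⟨s, hs⟩
        rw [← hn] at this
        exact lt_irrefl _ this
      have h5 : ∃ s, n ≤ g x s := ⟨s0, (hs0 s0 le_rfl).ge⟩
      simp only [Nat.unpair_pair]
      rw [if_neg hx, if_neg h4, if_pos h5]
      omega
  · intro x n hne
    simp only [Nat.unpair_pair] at hne ⊢
    split_ifs at hne ⊢ with h4 h5 h6
    · rw [h4]; rfl
    · exact absurd rfl hne
    · have h7 : lm g x = n := by
        obtain ⟨s, hs⟩ := h6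
        apply le_antisymm
        · rw [lm_le]
          intro s
          push Not at h5
          exact_mod_cast h5 s
        · exact le_trans (by exact_mod_cast hs) (le_lm x s)
      rw [h7]
      rfl
    · exact absurd rfl hne

variable {E B : ℕ → ℕ → Prop}

theorem cE_LM (hE : IsCES E) : LM (cE E) :=
  ⟨cE_computable hE (f := fun x : ℕ × ℕ => x.1) (h := fun x : ℕ × ℕ => x.2) (by fun_prop)
    (by fun_prop), cE_mono E⟩

theorem toNat_sz (hE : Equivalence E) {x y : ℕ} :
    (sz E x).toNat = (sz B y).toNat → sz B y ≠ 0 → sz E x = sz B y := by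
  intro h1 h2
  have h3 := sz_ne_zero hE x
  rcases eq_or_ne (sz E x) ⊤ with h | h
  · rw [h] at h1
    rcases eq_or_ne (sz B y) ⊤ with h' | h'
    · rw [h, h']
    · obtain ⟨n, hn⟩ := ENat.ne_top_iff_exists.1 h'
      rw [← hn] at h1 h2
      simp at h1 h2
      exact absurd h1.symm h2
  · obtain ⟨n, hn⟩ := ENat.ne_top_iff_exists.1 h
    rw [← hn] at h1 h3
    simp at h1 h3
    rcases eq_or_ne (sz B y) ⊤ with h' | h'
    · rw [h'] at h1
      simp at h1
      exact absurd h1 h3
    · obtain ⟨m, hm⟩ := ENat.ne_top_iff_exists.1 h'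
      rw [← hm] at h1
      simp at h1
      rw [← hn, ← hm, h1]

/-- the code of an element -/
noncomputable def cd (E : ℕ → ℕ → Prop) (x : ℕ) : ℕ :=
  Nat.pair (sz E x).toNat (Nat.pair (rk E x) (ps E x))

theorem cd_eq (hE : Equivalence E) (hB : Equivalence B) {x y : ℕ} :
    cd B y = cd E x ↔ sz B y = sz E x ∧ rk B y = rk E x ∧ ps B y = ps E x := by
  unfold cd
  rw [Nat.pair_eq_pair, Nat.pair_eq_pair]
  constructor
  · rintro ⟨h1, h2, h3⟩
    exact ⟨toNat_sz hB h1 (sz_ne_zero hE x), h2, h3⟩
  · rintro ⟨h1, h2, h3⟩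
    exact ⟨by rw [h1], h2, h3⟩

/-- the elements of infinite classes -/
noncomputable def infE (E : ℕ → ℕ → Prop) : ℕ → ℕ := chi fun x => sz E x = ⊤

/-- the rank computed from a list of sizes -/
noncomputable def rkF (E : ℕ → ℕ → Prop) (z : ℕ) : ℕ :=
  Nat.count (fun w => mn E w = w ∧
    (Denumerable.ofNat (List ℕ) (Nat.unpair z).2).getD w 0 =
      (Denumerable.ofNat (List ℕ) (Nat.unpair z).2).getD (Nat.unpair z).1 0) (mn E (Nat.unpair z).1)

theorem rkF_computable (hE : IsCES E) : Computable (rkF E) := by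
  have hmn := mn_computable hE
  have hL : Computable fun z : ℕ => Denumerable.ofNat (List ℕ) z := (Primrec.ofNat _).to_comp
  have hget : ∀ {α : Type} [Primcodable α] {f : α → List ℕ} {g : α → ℕ}, Computable f →
      Computable g → Computable fun x => (f x).getD (g x) 0 := by
    intro α _ f g hf hg
    have h : Computable (fun x => ((f x)[g x]?).getD 0) :=
      Primrec.option_getD.to_comp.comp (cgetElem hf hg) (Computable.const 0)
    exact h.of_eq fun x => by rw [List.getD_eq_getElem?_getD]
  unfold rkF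
  refine ccnt (p := fun (z : ℕ) w => mn E w = w ∧
    (Denumerable.ofNat (List ℕ) (Nat.unpair z).2).getD w 0 =
      (Denumerable.ofNat (List ℕ) (Nat.unpair z).2).getD (Nat.unpair z).1 0)
    (f := fun z => mn E (Nat.unpair z).1) ?_ (by fun_prop)
  refine cpand (cp_eq (by fun_prop) (by fun_prop)) (cp_eq (hget ?_ ?_) (hget ?_ ?_)) <;>
    fun_prop

theorem rk_eq (hE : Equivalence E) (x : ℕ) : rk E x =
    rkF E (Nat.pair x (Encodable.encode
      (Pool.Agent.Helper583.TC.pre (fun w => (sz E w).toNat) (x + 1)))) := by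
  unfold rk rkF
  simp only [Nat.unpair_pair, Denumerable.ofNat_encode]
  rw [Nat.count_eq_card_filter_range, Nat.count_eq_card_filter_range]
  congr 1
  apply Finset.filter_congr
  intro w hw
  have hw1 : w < x + 1 := by
    have h1 := Finset.mem_range.1 hw
    have h2 := mn_le (hE.refl x)
    omega
  have hget : ∀ v, v < x + 1 → (Pool.Agent.Helper583.TC.pre (fun w => (sz E w).toNat)
      (x + 1)).getD v 0 = (sz E v).toNat := by
    intro v hv
    unfold Pool.Agent.Helper583.TC.pre
    rw [List.getD_eq_getElem?_getD, List.getElem?_map, List.getElem?_range hv]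
    rfl
  rw [hget w hw1, hget x (by omega)]
  unfold K
  constructor
  · rintro ⟨h1, h2⟩
    exact ⟨h1, by rw [h2]⟩
  · rintro ⟨h1, h2⟩
    exact ⟨h1, toNat_sz hE h2 (sz_ne_zero hE x)⟩

theorem red_cd (hD : Red chH D) (hE : IsCES E) (hi : Red (infE E) D) : Red (cd E) D := by
  have h1 : Red (fun x => (sz E x).toNat) D := by
    have h2 := red_lim hD (cE_LM hE) (by
      simp only [lm_cE]
      exact hi)
    simp only [lm_cE] at h2
    exact h2
  have h3 : Red (rk E) D := by
    have h4 := ri_comp (ri_comput (O := {orc D}) (rkF_computable hE))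
      (ri_pair (ri_comput (O := {orc D}) (f := fun x => x) (by fun_prop))
      (ri_comp (ri_pre h1) (ri_comput (O := {orc D}) (f := fun x => x + 1) (by fun_prop))))
    have h5 : rk E = fun x => rkF E (Nat.pair x (Encodable.encode
      (Pool.Agent.Helper583.TC.pre (fun w => (sz E w).toNat) (x + 1)))) := by
      funext x
      exact rk_eq hE.1 x
    rw [h5]
    exact h4
  have h6 : Red (ps E) D := rcomput (cE_computable hE (f := fun x : ℕ => x)
    (h := fun x : ℕ => x) (by fun_prop) (by fun_prop))
  exact ri_pair h1 (ri_pair h3 h6)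

/-- two copies whose infinite parts are computable in `D` are isomorphic by a map computable
in `D` -/
theorem iso_of_inf (hD : Red chH D) (hE : IsCES E) (hB : IsCES B)
    (hc : ∀ t, t ≠ 0 → cnt E t = cnt B t) (hiE : Red (infE E) D) (hiB : Red (infE B) D) :
    ∃ f, IsIso E B f ∧ Red f D := by
  choose f hf using exists_map hE.1 hB.1 hc
  refine ⟨f, isIso_of_code hE.1 hB.1 hc hf, ?_⟩
  have h1 := red_cd hD hE hiE
  have h2 := red_cd hD hB hiB
  have h3 : Red (chi fun z : ℕ => cd B (Nat.unpair z).2 = cd E (Nat.unpair z).1) D := by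
    have h4 : Red (chi fun z : ℕ => (Nat.unpair z).1 = (Nat.unpair z).2) D :=
      chi_of_cp (cp_eq (by fun_prop) (by fun_prop))
    have h5 := chi_comp h4 (ri_pair (rcomp h2 (rcomput (by fun_prop :
      Computable fun z : ℕ => (Nat.unpair z).2))) (rcomp h1 (rcomput (by fun_prop :
      Computable fun z : ℕ => (Nat.unpair z).1))))
    simpa using h5
  have hQ := rite h3 (rcomput (by fun_prop : Computable fun z : ℕ => (Nat.unpair z).2 + 1))
    (rcomput (Computable.const 0))
  refine ri_search hQ ?_ ?_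
  · intro x
    refine ⟨f x, ?_⟩
    simp only [Nat.unpair_pair]
    rw [if_pos ((cd_eq hE.1 hB.1).2 (hf x))]
    omega
  · intro x y hne
    simp only [Nat.unpair_pair] at hne ⊢
    split_ifs at hne ⊢ with h4
    · have h5 := (cd_eq hE.1 hB.1).1 h4
      have h6 := hf x
      have h7 : B y (f x) := by
        rw [rel_iff hB.1, h5.1, h5.2.1, h6.1, h6.2.1]
        exact ⟨rfl, rfl⟩
      rw [eq_of_ps hB.1 h7 (by rw [h5.2.2, h6.2.2])]
    · exact absurd rfl hne

end Pool.Agent.U44.EQ
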