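import Pool.Agent.U44.EQ.Def

/-!
# Realising computable nondecreasing size functions by computable equivalence structures
-/

set_option autoImplicit false

namespace Pool.Agent.U44.EQ

open Classical
open Pool.Agent.Helper446 Pool.Agent.Helper446.RE

section comp

variable {α β : Type} [Primcodable α] [Primcodable β]

theorem cpand {p q : α → Prop} (hp : ComputablePred p) (hq : ComputablePred q) :
    ComputablePred fun a => p a ∧ q a := by
  refine cp_of_re (RE.and hp.to_re hq.to_re) ?_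
  refine (RE.or hp.not.to_re hq.not.to_re).of_eq fun a => ?_
  tauto

theorem cpor {p q : α → Prop} (hp : ComputablePred p) (hq : ComputablePred q) :
    ComputablePred fun a => p a ∨ q a := by
  refine cp_of_re (RE.or hp.to_re hq.to_re) ?_
  refine (RE.and hp.not.to_re hq.not.to_re).of_eq fun a => ?_
  tauto

theorem cpall {p : α → ℕ → Prop} (hp : ComputablePred fun x : α × ℕ => p x.1 x.2) {f : α → ℕ}
    (hf : Computable f) : ComputablePred fun a => ∀ i < f a, p a i := by
  obtain ⟨q, hq, h⟩ := ComputablePred.computable_iff.1 hp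
  have h1 : Computable fun a => allB (fun i => q (a, i)) (f a) :=
    computable_allB (q := fun a i => q (a, i)) (by exact hq) hf
  refine (ComputablePred.computable_iff.2 ⟨_, h1, rfl⟩ : ComputablePred fun a =>
    allB (fun i => q (a, i)) (f a) = true).of_eq fun a => ?_
  rw [allB_iff]
  have : ∀ i, p a i ↔ q (a, i) = true := fun i => by
    have := congrFun h (a, i)
    simpa using this
  simp only [this]

theorem cpex {p : α → ℕ → Prop} (hp : ComputablePred fun x : α × ℕ => p x.1 x.2) {f : α → ℕ}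
    (hf : Computable f) : ComputablePred fun a => ∃ i < f a, p a i := by
  have h := (cpall (p := fun a i => ¬ p a i) hp.not hf).not
  refine h.of_eq fun a => ?_
  push Not
  rfl

theorem ccnt {p : α → ℕ → Prop} [∀ a, DecidablePred (p a)]
    (hp : ComputablePred (fun x : α × ℕ => p x.1 x.2)) {f : α → ℕ}
    (hf : Computable f) : Computable (fun a => Nat.count (p a) (f a)) := by
  have h1 : Computable fun x : α × (ℕ × ℕ) => x.2.2 + if p x.1 x.2.1 then 1 else 0 := by
    have h2 : ComputablePred fun x : α × (ℕ × ℕ) => p x.1 x.2.1 :=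
      cp_comp (p := fun x : α × ℕ => p x.1 x.2) hp (by fun_prop :
        Computable fun x : α × (ℕ × ℕ) => (x.1, x.2.1))
    have h3 : Computable fun x : α × (ℕ × ℕ) => if p x.1 x.2.1 then 1 else 0 :=
      cite h2 (by fun_prop) (by fun_prop)
    fun_prop
  have h := Computable.nat_rec (f := f) (g := fun _ : α => (0 : ℕ))
    (h := fun (a : α) (y : ℕ × ℕ) => y.2 + if p a y.1 then 1 else 0) hf (Computable.const 0) h1
  refine h.of_eq fun a => ?_
  generalize f a = n
  induction n with
  | zero => simp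
  | succ n ih => rw [Nat.count_succ, ← ih]

end comp

/-! ### limits -/

section lim

variable {g : ℕ → ℕ → ℕ}

theorem lt_lm {j x : ℕ} : (j : ℕ∞) < lm g x ↔ ∃ s, j < g x s := by
  unfold lm
  rw [lt_iSup_iff]
  simp

theorem lm_le {n : ℕ∞} {x : ℕ} : lm g x ≤ n ↔ ∀ s, (g x s : ℕ∞) ≤ n := by
  unfold lm
  rw [iSup_le_iff]

theorem le_lm (x s : ℕ) : (g x s : ℕ∞) ≤ lm g x := le_iSup (fun s => (g x s : ℕ∞)) s

theorem lm_eq_top {x : ℕ} : lm g x = ⊤ ↔ ∀ n, ∃ s, n < g x s := by
  rw [ENat.eq_top_iff_forall_gt]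
  simp only [lt_lm]

theorem lm_ev (hg : ∀ x, Monotone (g x)) {x n : ℕ} (h : lm g x = n) :
    ∃ s0, ∀ s, s0 ≤ s → g x s = n := by
  have h1 : ∀ s, g x s ≤ n := by
    intro s
    have := lm_le.1 (le_of_eq h) s
    exact_mod_cast this
  rcases Nat.eq_zero_or_pos n with rfl | hn
  · exact ⟨0, fun s _ => Nat.le_zero.1 (h1 s)⟩
  · have h2 : ((n - 1 : ℕ) : ℕ∞) < lm g x := by
      rw [h]
      exact_mod_cast (by omega : n - 1 < n)
    obtain ⟨s0, hs0⟩ := lt_lm.1 h2
    refine ⟨s0, fun s hs => ?_⟩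
    have := hg x hs
    have := h1 s
    omega

theorem lm_of_ev (hg : ∀ x, Monotone (g x)) {x n s0 : ℕ} (h : ∀ s, s0 ≤ s → g x s = n) :
    lm g x = n := by
  apply le_antisymm
  · rw [lm_le]
    intro s
    have h1 := hg x (le_max_left s s0)
    rw [h _ (le_max_right s s0)] at h1
    exact_mod_cast h1
  · rw [← h s0 le_rfl]
    exact le_lm x s0

end lim

theorem encard_lt (t : ℕ∞) : Set.encard {j : ℕ | (j : ℕ∞) < t} = t := by
  rcases eq_or_ne t ⊤ with rfl | ht
  · have : ({j : ℕ | (j : ℕ∞) < ⊤} : Set ℕ) = Set.univ := by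
      ext j
      simp
    rw [this, Set.encard_univ]
    simp
  · obtain ⟨n, rfl⟩ := ENat.ne_top_iff_exists.1 ht
    have : ({j : ℕ | (j : ℕ∞) < n} : Set ℕ) = ((Finset.range n : Finset ℕ) : Set ℕ) := by
      ext j
      simp
    rw [this, Set.encard_coe_eq_coe_finsetCard, Finset.card_range]

theorem realize {G : ℕ → ℕ → ℕ} (hG : LM G) {i0 : ℕ} (h0 : lm G i0 = ⊤) :
    ∃ idx : ℕ → ℕ, Computable idx ∧ ∀ i, Set.encard {x | idx x = i} = lm G i := by
  obtain ⟨D, hD⟩ : ∃ D : ℕ → Prop, ∀ d, D d ↔ ((Nat.unpair (Nat.unpair d).2).1 <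
      G (Nat.unpair d).1 (Nat.unpair (Nat.unpair d).2).2 ∧
      ∀ s < (Nat.unpair (Nat.unpair d).2).2, ¬ (Nat.unpair (Nat.unpair d).2).1 <
        G (Nat.unpair d).1 s) := ⟨_, fun _ => Iff.rfl⟩
  have hDc : ComputablePred D := by
    have hGc : Computable fun p : ℕ × ℕ => G p.1 p.2 := hG.1
    have h1 : ComputablePred fun d : ℕ => (Nat.unpair (Nat.unpair d).2).1 <
        G (Nat.unpair d).1 (Nat.unpair (Nat.unpair d).2).2 :=
      cp_lt (by fun_prop) (hGc.comp (by fun_prop : Computable fun d : ℕ =>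
        ((Nat.unpair d).1, (Nat.unpair (Nat.unpair d).2).2)))
    have h2 : ComputablePred fun d : ℕ => ∀ s < (Nat.unpair (Nat.unpair d).2).2,
        ¬ (Nat.unpair (Nat.unpair d).2).1 < G (Nat.unpair d).1 s := by
      refine cpall (p := fun d s => ¬ (Nat.unpair (Nat.unpair d).2).1 < G (Nat.unpair d).1 s) ?_
        (by fun_prop)
      refine ComputablePred.not (cp_lt (by fun_prop) (hGc.comp (by fun_prop :
        Computable fun d : ℕ × ℕ => ((Nat.unpair d.1).1, d.2))))
    exact (cpand h1 h2).of_eq fun d => (hD d).symm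
  have hcard : ∀ i, Set.encard {d | D d ∧ (Nat.unpair d).1 = i} = lm G i := by
    intro i
    have h1 : (fun d : ℕ => (Nat.unpair (Nat.unpair d).2).1) '' {d | D d ∧ (Nat.unpair d).1 = i} =
        {j : ℕ | (j : ℕ∞) < lm G i} := by
      ext j
      constructor
      · rintro ⟨d, ⟨hd, rfl⟩, rfl⟩
        exact lt_lm.2 ⟨_, ((hD d).1 hd).1⟩
      · intro hj
        have hj' := lt_lm.1 hj
        refine ⟨Nat.pair i (Nat.pair j (Nat.find hj')), ⟨?_, by simp⟩, by simp⟩
        rw [hD]
        simp only [Nat.unpair_pair]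
        exact ⟨Nat.find_spec hj', fun s hs => Nat.find_min hj' hs⟩
    rw [← encard_lt (lm G i), ← h1, Set.InjOn.encard_image]
    rintro d ⟨hd, hdi⟩ d' ⟨hd', hdi'⟩ hj
    simp only at hj
    rw [hD] at hd hd'
    rw [hdi] at hd
    rw [hdi', ← hj] at hd'
    have hs : (Nat.unpair (Nat.unpair d).2).2 = (Nat.unpair (Nat.unpair d').2).2 := by
      rcases lt_trichotomy (Nat.unpair (Nat.unpair d).2).2 (Nat.unpair (Nat.unpair d').2).2 with
        h | h | h
      · exact absurd hd.1 (hd'.2 _ h)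
      · exact h
      · exact absurd hd'.1 (hd.2 _ h)
    rw [← Nat.pair_unpair d, ← Nat.pair_unpair d', hdi, hdi', ← Nat.pair_unpair (Nat.unpair d).2,
      ← Nat.pair_unpair (Nat.unpair d').2, hj, hs]
  have hinf : (Set.ofPred D).Infinite := by
    intro hf
    have h1 : Set.encard {d | D d ∧ (Nat.unpair d).1 = i0} ≤ Set.encard (Set.ofPred D) :=
      Set.encard_le_encard fun d hd => hd.1
    rw [hcard, h0, top_le_iff, Set.encard_eq_top_iff] at h1
    exact h1 hf
  have hnth : Computable fun k => Nat.nth D k := by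
    refine computable_of_graph ?_
    have h1 : REPred fun x : ℕ × ℕ => D x.2 ∧ Nat.count D x.2 = x.1 :=
      RE.and (RE.comp (RE.of_comput hDc) Computable.snd)
        (RE.eq ((ccnt (p := fun (_ : ℕ × ℕ) i => D i) (cp_comp hDc Computable.snd)
          Computable.snd)) Computable.fst)
    refine h1.of_eq fun x => ?_
    constructor
    · rintro ⟨h2, h3⟩
      rw [← h3, Nat.nth_count h2]
    · intro h2
      rw [← h2]
      exact ⟨Nat.nth_mem_of_infinite hinf _, Nat.count_nth_of_infinite hinf _⟩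
  refine ⟨fun x => (Nat.unpair (Nat.nth D x)).1, by fun_prop, fun i => ?_⟩
  rw [← hcard i]
  have h1 : {d | D d ∧ (Nat.unpair d).1 = i} =
      (Nat.nth D) '' {x | (Nat.unpair (Nat.nth D x)).1 = i} := by
    ext d
    constructor
    · rintro ⟨hd, hdi⟩
      refine ⟨Nat.count D d, ?_, Nat.nth_count hd⟩
      simp only [Set.mem_ofPred_eq]
      rw [Nat.nth_count hd]; exact hdi
    · rintro ⟨x, hx, rfl⟩
      exact ⟨Nat.nth_mem_of_infinite hinf x, hx⟩
  rw [h1, Set.InjOn.encard_image (Nat.nth_injective hinf).injOn]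

/-- the structure of an index function -/
def st (idx : ℕ → ℕ) (x y : ℕ) : Prop := idx x = idx y

theorem isCES_st {idx : ℕ → ℕ} (h : Computable idx) : IsCES (st idx) := by
  refine ⟨⟨fun _ => rfl, fun h => Eq.symm h, fun h h' => Eq.trans h h'⟩, ?_⟩
  exact cp_eq (f := fun p : ℕ × ℕ => idx p.1) (g := fun p : ℕ × ℕ => idx p.2) (by fun_prop)
    (by fun_prop)

theorem sz_st {idx : ℕ → ℕ} {G : ℕ → ℕ → ℕ}
    (h : ∀ i, Set.encard {x | idx x = i} = lm G i) (x : ℕ) : sz (st idx) x = lm G (idx x) := by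
  rw [← h]
  unfold sz st
  congr 1
  ext y
  exact eq_comm

theorem cnt_st {idx : ℕ → ℕ} {G : ℕ → ℕ → ℕ}
    (h : ∀ i, Set.encard {x | idx x = i} = lm G i) {t : ℕ∞} (ht : t ≠ 0) :
    cnt (st idx) t = Set.encard {i | lm G i = t} := by
  have h1 : {C : Set ℕ | (∃ x, C = {y | st idx x y}) ∧ C.encard = t} =
      (fun i => {x | idx x = i}) '' {i | lm G i = t} := by
    ext C
    constructor
    · rintro ⟨⟨x, rfl⟩, h2⟩
      have h3 : {y | idx y = idx x} = {y | st idx x y} := by
        ext y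
        exact eq_comm
      refine ⟨idx x, ?_, h3⟩
      show lm G (idx x) = t
      rw [← h, h3]; exact h2
    · rintro ⟨i, hi, rfl⟩
      have h2 : Set.encard {x | idx x = i} = t := (h i).trans hi
      have h3 : Set.Nonempty {x | idx x = i} := by
        rw [← Set.encard_ne_zero, h2]; exact ht
      obtain ⟨x, hx⟩ := h3
      refine ⟨⟨x, ?_⟩, h2⟩
      ext y
      have hx' : idx x = i := hx
      show idx y = i ↔ idx x = idx y
      rw [hx']
      exact eq_comm
  unfold cnt
  rw [h1, Set.InjOn.encard_image]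
  intro i hi i' hi' hii
  have h3 : Set.Nonempty {x | idx x = i} := by
    rw [← Set.encard_ne_zero, h i, show lm G i = t from hi]; exact ht
  obtain ⟨x, hx⟩ := h3
  have hx2 : x ∈ (fun i => {x | idx x = i}) i' := by rw [← hii]; exact hx
  exact (show idx x = i from hx).symm.trans hx2

end Pool.Agent.U44.EQ
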